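import Mathlib

/-!
# Chen edges
-/

namespace Pool.Agent.Lib.H18C

/-- `m` is an odd prime. -/
def IsOddPrime (m : ℕ) : Prop := m.Prime ∧ Odd m

/-- `m` is an odd prime or a product of two (not necessarily distinct) odd primes. -/
def IsOddAlmostPrime (m : ℕ) : Prop :=
  IsOddPrime m ∨ ∃ r s : ℕ, IsOddPrime r ∧ IsOddPrime s ∧ m = r * s

/-- The graph of the Chen edges on a set `V` of even numbers: distinct `a`, `b` are adjacent iff one of
`(a + b) / 2` and `|a - b| / 2` is an odd prime and the other one is an odd prime or a product of two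
odd primes. -/
def chenGraph (V : Set ℕ) : SimpleGraph V where
  Adj a b := a ≠ b ∧
    ((IsOddPrime (((a : ℕ) + (b : ℕ)) / 2) ∧
        IsOddAlmostPrime ((((a : ℕ) : ℤ) - ((b : ℕ) : ℤ)).natAbs / 2)) ∨
      (IsOddAlmostPrime (((a : ℕ) + (b : ℕ)) / 2) ∧
        IsOddPrime ((((a : ℕ) : ℤ) - ((b : ℕ) : ℤ)).natAbs / 2)))
  symm := ⟨by
    intro a b ⟨h1, h2⟩
    refine ⟨h1.symm, ?_⟩
    rw [add_comm ((b : ℕ)) ((a : ℕ)), ← Int.natAbs_neg (((b : ℕ) : ℤ) - ((a : ℕ) : ℤ)), neg_sub]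
    exact h2⟩
  loopless := ⟨fun a h => h.1 rfl⟩

end Pool.Agent.Lib.H18C
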