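import Pool.Agent.Lib.H18GB2.BXM
import Pool.Agent.Lib.H18GB.GR6

/-!
# Project H18C (MP_443e5f_co, graph part of H59C): definitions

Halved vertices: `X ~ Y` iff `X + Y`, `|X - Y|` are odd primes (`hadj`); `HG n` is the graph on `[1, n]`.
The weights of H18GB2 (`Adm`) are supplemented by weights of pairs of rough numbers.
-/

open Finset Pool.Agent.Lib.Sieve Pool.Agent.Lib.GoldbachGraph Pool.Agent.Lib.H18GB

namespace Pool.Agent.Lib.H18C

noncomputable section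

/-- All prime factors of `v` are larger than `z`. -/
def Rg (z : ℕ) (v : ℤ) : Prop := ∀ p : ℕ, p.Prime → (p : ℤ) ∣ v → z < p

open Classical in
/-- `(φ(W)/W) log |v|` for the `z`-rough `v`. -/
def lamr (W z : ℕ) (v : ℤ) : ℝ :=
  if Rg z v then (Nat.totient W / W : ℝ) * Real.log v.natAbs else 0

/-- Admissible weights: those of `Adm`; weights dominated by pairs `b + W x`, `b' - W x` of
`N^(1/16)`-rough numbers (normalised); weights dominated by the primes `b + W x`. -/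
def AdmR (w W N : ℕ) (F : ℤ → ℝ) : Prop :=
  Adm w W N F ∨ ((∀ x, 0 ≤ F x) ∧
    ((∃ b b' : ℤ, |b| ≤ 4 * W * N ∧ |b'| ≤ 4 * W * N ∧ b + b' ≠ 0 ∧
      ∀ x, F x ≤ lamr W (rt 16 N) (b + W * x) * lamr W (rt 16 N) (b' - W * x) / SW w (b + b')) ∨
    (∃ b : ℤ, |b| ≤ 4 * W ∧ ∀ x, F x ≤ lamv W (b + W * x))))

/-- The class `y0` modulo `W` contains many elements of `A`, measured by an admissible weight. -/
structure StartW (w W N : ℕ) (A : Finset ℕ) (y0 : ℕ) (ε : ℝ) : Prop where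
  lt : y0 < W
  wt : ∃ F : ℤ → ℝ, AdmR w W N F ∧
    (∀ x, F x ≠ 0 → ∃ y ∈ Finset.Ico 1 N, x = (y : ℤ) ∧ y0 + W * y ∈ A) ∧
    ε * N ≤ ∑ x ∈ Finset.Ico (0 : ℤ) N, F x

/-- All prime factors of `X + y` and of `X - y` are at least `n^(1/10)`. -/
def RoughPair (n X y : ℕ) : Prop :=
  ∀ p : ℕ, p.Prime → ((p : ℤ) ∣ (X : ℤ) + y ∨ (p : ℤ) ∣ (X : ℤ) - y) →
    (n : ℝ) ^ (1 / 10 : ℝ) ≤ p

/-- `A` is a large set of rough neighbours of `X`, or a large set of primes if `X = 0`. -/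
def Large (ε : ℝ) (n X : ℕ) (A : Finset ℕ) : Prop :=
  A ⊆ Finset.Icc 1 n ∧
    ((1 ≤ X ∧ (∀ y ∈ A, RoughPair n X y) ∧ ε * SH X * n / Real.log n ^ 2 ≤ A.card) ∨
      (X = 0 ∧ (∀ y ∈ A, y.Prime) ∧ ε * n / Real.log n ≤ A.card))

end

end Pool.Agent.Lib.H18C
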