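import Pool.Agent.Lib.H18C.RG
import Pool.Agent.Lib.H18C.ChenDefs
import Pool.Agent.Lib.H18GB.Transfer
import Pool.Agent.Lib.H59C.CF

/-!
# Chen edges and Goldbach edges: assembly for both families of graphs
-/

open Finset Pool.Agent.Lib.H18GB Pool.Agent.Lib.GoldbachGraph Pool.Agent.Goldbach

namespace Pool.Agent.Lib.H18C

theorem fin_pow (b b' C D : ℝ) (hb' : 0 < b') (h : b' < b) :
    ∀ᶠ y : ℝ in Filter.atTop, C * y ^ b' + D ≤ y ^ b := by
  have h1 := tendsto_rpow_atTop (show 0 < b - b' by linarith)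
  filter_upwards [h1.eventually_ge_atTop (|C| + |D|), Filter.eventually_ge_atTop (1 : ℝ)] with y hy hy1
  have hy0 : 0 < y := by linarith
  have h2 : y ^ b = y ^ b' * y ^ (b - b') := by
    rw [← Real.rpow_add hy0]; congr 1; ring
  have h3 : 1 ≤ y ^ b' := Real.one_le_rpow hy1 hb'.le
  rw [h2]
  have h4 : y ^ b' * (|C| + |D|) ≤ y ^ b' * y ^ (b - b') :=
    mul_le_mul_of_nonneg_left hy (by linarith)
  have h5 : C * y ^ b' ≤ |C| * y ^ b' := mul_le_mul_of_nonneg_right (le_abs_self C) (by linarith)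
  have h6 : D ≤ |D| * y ^ b' := by
    have := abs_nonneg D
    have := le_abs_self D
    nlinarith
  nlinarith

theorem fin_log (b C D : ℝ) (hb : 0 < b) :
    ∀ᶠ y : ℝ in Filter.atTop, C * Real.log y + D ≤ y ^ b := by
  filter_upwards [fin_pow b (b / 2) (|C| * (2 / b)) D (by linarith) (by linarith),
    Filter.eventually_ge_atTop (1 : ℝ)] with y hy hy1
  have h1 := Real.log_le_rpow_div (by linarith : (0 : ℝ) ≤ y) (by linarith : 0 < b / 2)
  have h2 : 0 ≤ Real.log y := Real.log_nonneg hy1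
  have h3 : C * Real.log y ≤ |C| * Real.log y := mul_le_mul_of_nonneg_right (le_abs_self C) h2
  have h4 : |C| * Real.log y ≤ |C| * (y ^ (b / 2) / (b / 2)) :=
    mul_le_mul_of_nonneg_left h1 (abs_nonneg C)
  have h5 : |C| * (y ^ (b / 2) / (b / 2)) = |C| * (2 / b) * y ^ (b / 2) := by
    field_simp
  linarith

theorem fin_primes : ∃ n0 : ℕ, ∀ n : ℕ, n0 ≤ n → 2 ≤ n ∧
    (n : ℝ) / 2 ≤ (((Icc 1 n).filter Nat.Prime).card : ℝ) * Real.log n ∧ 100 * Real.log n ≤ n := by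
  have hev : ∀ᶠ y : ℝ in Filter.atTop, 100 * Real.log y + 10 ≤ y ^ (1 / 4 : ℝ) ∧ 100 ≤ y := by
    filter_upwards [fin_log (1 / 4) 100 10 (by norm_num), Filter.eventually_ge_atTop (100 : ℝ)]
      with y h1 h2
    exact ⟨h1, h2⟩
  obtain ⟨n0, hn0⟩ := Filter.eventually_atTop.1 (tendsto_natCast_atTop_atTop.eventually hev)
  refine ⟨n0, fun n hn => ?_⟩
  obtain ⟨h1, h2⟩ := hn0 n hn
  have hn0' : (0 : ℝ) < n := by linarith
  have hn2 : 2 ≤ n := by
    have : (2 : ℝ) ≤ n := by linarith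
    exact_mod_cast this
  have hq : (n : ℝ) ^ (1 / 4 : ℝ) ≤ n := by
    calc (n : ℝ) ^ (1 / 4 : ℝ) ≤ (n : ℝ) ^ (1 : ℝ) :=
          Real.rpow_le_rpow_of_exponent_le (by linarith) (by norm_num)
      _ = n := Real.rpow_one _
  have hL0 : 0 ≤ Real.log n := Real.log_natCast_nonneg n
  refine ⟨hn2, ?_, by linarith⟩
  have hth := Chebyshev.theta_ge n
  have h3 : 2 * Real.sqrt n * Real.log n ≤ n / 50 := by
    have h4 : Real.sqrt n * (n : ℝ) ^ (1 / 4 : ℝ) ≤ n := by
      rw [Real.sqrt_eq_rpow, ← Real.rpow_add hn0']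
      calc (n : ℝ) ^ (1 / 2 + 1 / 4 : ℝ) ≤ (n : ℝ) ^ (1 : ℝ) :=
            Real.rpow_le_rpow_of_exponent_le (by linarith) (by norm_num)
        _ = n := Real.rpow_one _
    have h5 : 0 ≤ Real.sqrt n := Real.sqrt_nonneg _
    nlinarith
  have h4 : Real.log ((n : ℝ) + 1) ≤ n / 50 := by
    have h5 : Real.log ((n : ℝ) + 1) ≤ Real.log (2 * n) := by
      apply Real.log_le_log (by linarith)
      linarith
    rw [Real.log_mul (by norm_num) hn0'.ne'] at h5
    have h6 := Real.log_two_lt_d9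
    linarith
  have h5 : (n : ℝ) / 2 ≤ Chebyshev.theta n := by
    have h6 := Real.log_two_gt_d9
    nlinarith
  refine h5.trans ?_
  have h6 : Chebyshev.theta n = ∑ p ∈ (Icc 1 n).filter Nat.Prime, Real.log p := by
    unfold Chebyshev.theta
    rw [Nat.floor_natCast]
    rfl
  rw [h6, ← nsmul_eq_mul]
  apply Finset.sum_le_card_nsmul
  intro p hp
  rw [mem_filter, mem_Icc] at hp
  apply Real.log_le_log
  · exact_mod_cast hp.2.pos
  · exact_mod_cast hp.1.2

/-- Every vertex has a large set of Chen neighbours. -/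
theorem fin_large : ∃ ε : ℝ, 0 < ε ∧ ∃ n0 : ℕ, ∀ n : ℕ, n0 ≤ n → ∀ X : ℕ, X ≤ n →
    ∃ A : Finset ℕ, Large ε n X A ∧ ∀ y ∈ A, X ≠ y ∧
      ((IsOddPrime (X + y) ∧ IsOddAlmostPrime (Nat.dist X y)) ∨
        (IsOddAlmostPrime (X + y) ∧ IsOddPrime (Nat.dist X y))) := by
  classical
  obtain ⟨c, hc, n1, h1⟩ := Pool.Agent.Lib.H59C.chen_nbrs
  obtain ⟨n2, h2⟩ := fin_primes
  refine ⟨min c (1 / 4), lt_min hc (by norm_num), max (max n1 n2) 2000, fun n hn X hX => ?_⟩
  have hn1 : n1 ≤ n := ((le_max_left _ _).trans (le_max_left _ _)).trans hn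
  have hn2 : n2 ≤ n := ((le_max_right _ _).trans (le_max_left _ _)).trans hn
  have hn3 : 2000 ≤ n := (le_max_right _ _).trans hn
  have hnR : (2000 : ℝ) ≤ n := by exact_mod_cast hn3
  have hlog : 0 < Real.log n := Real.log_pos (by linarith)
  have h10 : 2 < (n : ℝ) ^ (1 / 10 : ℝ) := by
    have h3 : ((2 : ℝ) ^ (10 : ℕ)) ^ (1 / 10 : ℝ) < (n : ℝ) ^ (1 / 10 : ℝ) := by
      apply Real.rpow_lt_rpow (by positivity) _ (by norm_num)
      norm_num
      linarith
    have h4 : ((2 : ℝ) ^ (10 : ℕ)) ^ (1 / 10 : ℝ) = 2 := by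
      rw [← Real.rpow_natCast, ← Real.rpow_mul (by norm_num)]
      norm_num
    linarith
  by_cases hX0 : X = 0
  · subst hX0
    obtain ⟨_, h3, h4⟩ := h2 n hn2
    refine ⟨((Icc 1 n).filter Nat.Prime).erase 2, ⟨?_, Or.inr ⟨rfl, ?_, ?_⟩⟩, ?_⟩
    · exact (erase_subset _ _).trans (filter_subset _ _)
    · intro y hy
      exact (mem_filter.1 (mem_of_mem_erase hy)).2
    · have h5 : (((Icc 1 n).filter Nat.Prime).card : ℝ) - 1 ≤
          (((Icc 1 n).filter Nat.Prime).erase 2).card := by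
        have h6 := Finset.pred_card_le_card_erase (s := (Icc 1 n).filter Nat.Prime) (a := 2)
        have h7 : ((Icc 1 n).filter Nat.Prime).card ≤
            (((Icc 1 n).filter Nat.Prime).erase 2).card + 1 := by omega
        have h8 : (((Icc 1 n).filter Nat.Prime).card : ℝ) ≤
            (((Icc 1 n).filter Nat.Prime).erase 2).card + 1 := by exact_mod_cast h7
        linarith
      refine le_trans ?_ h5
      rw [div_le_iff₀ hlog]
      have h6 : min c (1 / 4) * (n : ℝ) ≤ 1 / 4 * n :=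
        mul_le_mul_of_nonneg_right (min_le_right _ _) (by linarith)
      nlinarith
    · intro y hy
      rw [mem_erase, mem_filter] at hy
      have hodd : IsOddPrime y := ⟨hy.2.2, hy.2.2.odd_of_ne_two hy.1⟩
      refine ⟨hy.2.2.ne_zero.symm, Or.inl ⟨?_, ?_⟩⟩
      · simpa using hodd
      · left
        simpa [Nat.dist] using hodd
  · have hX1 : X ∈ Icc 1 n := mem_Icc.2 ⟨by omega, hX⟩
    refine ⟨(Icc 1 n).filter (fun y => Pool.Agent.Lib.H59C.ChenAdj n X y),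
      ⟨filter_subset _ _, Or.inl ⟨by omega, ?_, ?_⟩⟩, ?_⟩
    · intro y hy p hp hd
      rw [mem_filter] at hy
      apply hy.2.2 p hp
      rcases hd with hd | hd
      · left
        have : (p : ℤ) ∣ ((X + y : ℕ) : ℤ) := by push_cast; exact hd
        exact Int.natCast_dvd_natCast.1 this
      · right
        have h5 : Nat.dist X y = ((X : ℤ) - y).natAbs := by unfold Nat.dist; omega
        rw [h5]
        exact Int.natCast_dvd.1 hd
    · have h5 := h1 n hn1 X hX1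
      refine le_trans ?_ h5
      have h6 : Pool.Agent.Lib.H59C.hl X = SH X := rfl
      rw [h6]
      have hSH := SH_ge_one X
      apply div_le_div_of_nonneg_right _ (by positivity)
      apply mul_le_mul_of_nonneg_right _ (by linarith)
      exact mul_le_mul_of_nonneg_right (min_le_left _ _) (by linarith)
    · intro y hy
      rw [mem_filter] at hy
      obtain ⟨_, hadj1, hrough⟩ := hy
      have hodd : ∀ p : ℕ, p.Prime → (p ∣ X + y ∨ p ∣ Nat.dist X y) → IsOddPrime p := by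
        intro p hp hd
        refine ⟨hp, hp.odd_of_ne_two ?_⟩
        rintro rfl
        have := hrough 2 hp hd
        norm_num at this h10
        linarith
      have hP1 : ∀ v : ℕ, v.Prime → (v = X + y ∨ v = Nat.dist X y) → IsOddPrime v := by
        intro v hv h
        apply hodd v hv
        rcases h with h | h
        · left; rw [← h]
        · right; rw [← h]
      have hP2 : ∀ v : ℕ, Pool.Agent.Lib.H59C.P2 v → (v = X + y ∨ v = Nat.dist X y) →
          IsOddAlmostPrime v := by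
        intro v hv h
        rcases hv with hv | ⟨r, s, hr, hs, hrs⟩
        · exact Or.inl (hP1 v hv h)
        · right
          refine ⟨r, s, hodd r hr ?_, hodd s hs ?_, hrs⟩
          · have hd : r ∣ v := hrs ▸ dvd_mul_right r s
            rcases h with h | h
            · left; rw [← h]; exact hd
            · right; rw [← h]; exact hd
          · have hd : s ∣ v := hrs ▸ dvd_mul_left s r
            rcases h with h | h
            · left; rw [← h]; exact hd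
            · right; rw [← h]; exact hd
      refine ⟨?_, ?_⟩
      · rintro rfl
        rw [Nat.dist_self] at hadj1
        rcases hadj1 with ⟨_, h⟩ | ⟨h, _⟩
        · rcases h with h | ⟨r, s, hr, hs, hrs⟩
          · exact Nat.not_prime_zero h
          · have := Nat.mul_pos hr.pos hs.pos
            omega
        · exact Nat.not_prime_zero h
      · rcases hadj1 with ⟨h, h'⟩ | ⟨h, h'⟩
        · exact Or.inl ⟨hP1 _ h (Or.inl rfl), hP2 _ h' (Or.inr rfl)⟩
        · exact Or.inr ⟨hP2 _ h' (Or.inl rfl), hP1 _ h (Or.inr rfl)⟩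

/-- **The final statement** (`V`, `S` as in `H18GB/Transfer.lean`). -/
theorem fin_main : ∃ n0 : ℕ, ∀ n : ℕ, n0 ≤ n →
    ∀ V S : Set ℕ, (∀ a ∈ V, Even a ∧ a ≤ 2 * n) → (∀ x ∈ Finset.Icc 1 n, 2 * x ∈ V) →
    (∀ m, m.Prime → Odd m → m < 2 * n → m ∈ S) →
    ∀ a b : V, (∃ c d : V, (chenGraph V).Adj a c ∧ (halfGraph V S).edist c d ≤ 5 ∧
      (chenGraph V).Adj d b) ∧ (halfGraph V S ⊔ chenGraph V).edist a b ≤ 7 := by
  obtain ⟨ε, hε, n1, h1⟩ := fin_large
  obtain ⟨n2, h2⟩ := chen_graph ε hε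
  refine ⟨max n1 n2, fun n hn V S hV hV2 hS => ?_⟩
  have hn1 : n1 ≤ n := (le_max_left _ _).trans hn
  have hn2 : n2 ≤ n := (le_max_right _ _).trans hn
  rintro ⟨a, ha⟩ ⟨b, hb⟩
  obtain ⟨⟨X, hX⟩, han⟩ := hV a ha
  obtain ⟨⟨X', hX'⟩, hbn⟩ := hV b hb
  have hax : a = 2 * X := by omega
  have hbx : b = 2 * X' := by omega
  subst hax hbx
  obtain ⟨A, hA, hAy⟩ := h1 n hn1 X (by omega)
  obtain ⟨A', hA', hAy'⟩ := h1 n hn1 X' (by omega)
  obtain ⟨y, hy, y', hy', he⟩ := h2 n hn2 X X' A A' (by omega) (by omega) hA hA'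
  have hyI := hA.1 hy
  have hyI' := hA'.1 hy'
  have hchen : ∀ (Z z : ℕ) (hZ : 2 * Z ∈ V) (hz : 2 * z ∈ V), Z ≠ z →
      ((IsOddPrime (Z + z) ∧ IsOddAlmostPrime (Nat.dist Z z)) ∨
        (IsOddAlmostPrime (Z + z) ∧ IsOddPrime (Nat.dist Z z))) →
      (chenGraph V).Adj ⟨2 * Z, hZ⟩ ⟨2 * z, hz⟩ := by
    intro Z z hZ hz hne h
    refine ⟨fun h0 => hne ?_, ?_⟩
    · have := congrArg (fun v : V => (v : ℕ)) h0
      simp only at this
      omega
    · have e1 : (2 * Z + 2 * z) / 2 = Z + z := by omega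
      have e2 : (((2 * Z : ℕ) : ℤ) - ((2 * z : ℕ) : ℤ)).natAbs / 2 = Nat.dist Z z := by
        unfold Nat.dist; omega
      simp only
      rw [e1, e2]
      exact h
  have hc1 := hchen X y ha (hV2 y hyI) (hAy y hy).1 (hAy y hy).2
  have hc2 := hchen X' y' hb (hV2 y' hyI') (hAy' y' hy').1 (hAy' y' hy').2
  have h5 := edist_transfer hV2 hS hyI hyI' (k := 5) he
  refine ⟨⟨⟨2 * y, hV2 y hyI⟩, ⟨2 * y', hV2 y' hyI'⟩, hc1, h5, hc2.symm⟩, ?_⟩
  set G := halfGraph V S ⊔ chenGraph V with hG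
  have g1 : G.Adj ⟨2 * X, ha⟩ ⟨2 * y, hV2 y hyI⟩ := (le_sup_right : chenGraph V ≤ G) hc1
  have g2 : G.Adj ⟨2 * y', hV2 y' hyI'⟩ ⟨2 * X', hb⟩ := (le_sup_right : chenGraph V ≤ G) hc2.symm
  have g5 : G.edist ⟨2 * y, hV2 y hyI⟩ ⟨2 * y', hV2 y' hyI'⟩ ≤ 5 :=
    (SimpleGraph.edist_anti (le_sup_left : halfGraph V S ≤ G)).trans h5
  have k1 : G.edist ⟨2 * X, ha⟩ ⟨2 * y, hV2 y hyI⟩ ≤ 1 := by
    refine (SimpleGraph.edist_le (.cons g1 .nil)).trans ?_
    norm_num
  have k2 : G.edist ⟨2 * y', hV2 y' hyI'⟩ ⟨2 * X', hb⟩ ≤ 1 := by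
    refine (SimpleGraph.edist_le (.cons g2 .nil)).trans ?_
    norm_num
  calc G.edist ⟨2 * X, ha⟩ ⟨2 * X', hb⟩
      ≤ G.edist ⟨2 * X, ha⟩ ⟨2 * y', hV2 y' hyI'⟩ + G.edist ⟨2 * y', hV2 y' hyI'⟩ ⟨2 * X', hb⟩ :=
        SimpleGraph.edist_triangle
    _ ≤ (G.edist ⟨2 * X, ha⟩ ⟨2 * y, hV2 y hyI⟩ +
          G.edist ⟨2 * y, hV2 y hyI⟩ ⟨2 * y', hV2 y' hyI'⟩) +
          G.edist ⟨2 * y', hV2 y' hyI'⟩ ⟨2 * X', hb⟩ :=
        add_le_add_left SimpleGraph.edist_triangle _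
    _ ≤ (1 + 5) + 1 := add_le_add (add_le_add k1 g5) k2
    _ = 7 := by norm_num

end Pool.Agent.Lib.H18C
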