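import Pool.Agent.Lib.H18C.Defs

/-!
# Chunk R2: from a large set of rough neighbours to a class
-/

open Finset Pool.Agent.Lib.Sieve Pool.Agent.Lib.GoldbachGraph Pool.Agent.Lib.H18GB

namespace Pool.Agent.Lib.H18C

theorem R2_lamr_nonneg (W z : ℕ) (v : ℤ) : 0 ≤ lamr W z v := by
  unfold lamr
  split_ifs
  · exact mul_nonneg (by positivity) (Real.log_natCast_nonneg _)
  · exact le_rfl

/-- roughness from the lower bound `n^(1/10)` -/
theorem R2_rough (w : ℕ) : ∃ n0 : ℕ, ∀ n : ℕ, n0 ≤ n → (w : ℝ) < (n : ℝ) ^ (1 / 10 : ℝ) ∧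
    ∀ N : ℕ, N ≤ n → (rt 16 N : ℝ) < (n : ℝ) ^ (1 / 10 : ℝ) := by
  refine ⟨w ^ 10 + 2, fun n hn => ⟨?_, fun N hN => ?_⟩⟩
  · have h1 : (w : ℝ) ^ 10 < n := by exact_mod_cast (by omega : w ^ 10 < n)
    have h2 : ((w : ℝ) ^ 10) ^ (1 / 10 : ℝ) < (n : ℝ) ^ (1 / 10 : ℝ) :=
      Real.rpow_lt_rpow (by positivity) h1 (by norm_num)
    rwa [← Real.rpow_natCast, ← Real.rpow_mul (Nat.cast_nonneg _), show ((10 : ℕ) : ℝ) * (1 / 10) = 1 by norm_num,
      Real.rpow_one] at h2
  · have h1 : (rt 16 N : ℝ) ≤ (N : ℝ) ^ (1 / ((16 : ℕ) : ℝ)) := rt_le_rpow 16 N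
    have h2 : (N : ℝ) ^ (1 / ((16 : ℕ) : ℝ)) ≤ (n : ℝ) ^ (1 / ((16 : ℕ) : ℝ)) :=
      Real.rpow_le_rpow (Nat.cast_nonneg _) (by exact_mod_cast hN) (by norm_num)
    have h3 : (n : ℝ) ^ (1 / ((16 : ℕ) : ℝ)) < (n : ℝ) ^ (1 / 10 : ℝ) := by
      apply Real.rpow_lt_rpow_of_exponent_lt
      · exact_mod_cast (by omega : 1 < n)
      · norm_num
    linarith

/-- Copy of `gr2` (file `H18GB/GR2.lean`) with `A` instead of the set of neighbours of `X`. The weight is
`F(y) = lamr(X + y0 + W y) lamr(X - y0 - W y) / SW w (2 X)` if `1 ≤ y < N`, `y0 + W y ∈ A`, and `0`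
otherwise (`lamr` with `z = rt 16 N < n^(1/10)`; admissible with `b = X + y0`, `b' = X - y0`). The
elements `y ∈ A` are in classes `y0` with `Comp W X y0` (their sums and differences have no prime factor
`≤ w`, `w < n^(1/10)`); all but `W + 2 √n + W` of them satisfy `W ≤ y < W N`, `|X - y| ≥ √n`, and
have weight `≥ (φ(W)/W)^2 (log n)^2/4 / SW w (2X)`; the count of the classes is as in `gr2`
(which gives `ε/20`, with some loss `ε/40`). -/
theorem gr2R (ε : ℝ) (hε : 0 < ε) (w : ℕ) (hw : 3 ≤ w) : ∃ n0 : ℕ, ∀ n : ℕ, n0 ≤ n →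
    ∀ X ∈ Finset.Icc 1 n, ∀ A ⊆ Finset.Icc 1 n, (∀ y ∈ A, RoughPair n X y) →
    ε * SH X * n / Real.log n ^ 2 ≤ A.card →
    ∃ y0 : ℕ, Comp (primorial w) X y0 ∧
      StartW w (primorial w) (n / primorial w) A y0 (ε / 40) := by
  classical
  set W := primorial w with hW
  have hWpos : 0 < W := primorial_pos w
  have hIsW : IsW w W := isW_primorial
  obtain ⟨n0, hn0⟩ := gr2_asym (2 * W) ε hε
  obtain ⟨n1, hn1⟩ := R2_rough w
  refine ⟨n0 + n1, fun n hn X hX A hA hAr hdeg => ?_⟩
  obtain ⟨hasy, hWs, hn3⟩ := hn0 n (by omega)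
  obtain ⟨hwn, hzn⟩ := hn1 n (by omega)
  rw [mem_Icc] at hX
  set N := n / W with hN
  have hNn : N ≤ n := Nat.div_le_self n W
  have hz := hzn N hNn
  set z := rt 16 N with hzdef
  have hWr : (0 : ℝ) < W := by exact_mod_cast hWpos
  have hn3r : (3 : ℝ) ≤ n := by exact_mod_cast hn3
  have hlog : 0 < Real.log n := Real.log_pos (by linarith)
  have hSH1 := SH_ge_one X
  have hWs' : W ≤ Nat.sqrt n := by omega
  have hWn : W ≤ n := le_trans hWs' (Nat.sqrt_le_self n)
  have hNpos : 0 < N := Nat.div_pos hWn hWpos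
  have hNr : (0 : ℝ) < N := by exact_mod_cast hNpos
  have hNW : (N : ℝ) * W ≤ n := by exact_mod_cast Nat.div_mul_le_self n W
  have hnWN : n < W * N + W := by
    have h1 := Nat.div_add_mod n W
    have h2 := Nat.mod_lt n hWpos
    rw [← hN] at h1
    omega
  -- the weights
  set T : ℕ → ℕ → ℝ := fun y0 y => if 1 ≤ y ∧ y0 + W * y ∈ A then
    lamr W z (X + y0 + W * y) * lamr W z (X - y0 - W * y) else 0 with hT
  have hT0 : ∀ y0 y, 0 ≤ T y0 y := by
    intro y0 y
    rw [hT]
    simp only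
    split_ifs
    · exact mul_nonneg (R2_lamr_nonneg _ _ _) (R2_lamr_nonneg _ _ _)
    · exact le_rfl
  set Cls := (range W).filter (fun y : ℕ => Comp W X y) with hCls
  by_contra hcon
  -- each class carries little weight
  have hcon' : ∀ y0 ∈ Cls, ∑ y ∈ range N, T y0 y ≤ ε / 40 * N * SW w (2 * X) := by
    intro y0 hy0
    rw [hCls, mem_filter, mem_range] at hy0
    by_contra hlt
    push Not at hlt
    apply hcon
    refine ⟨y0, hy0.2, hy0.1, ?_⟩
    have hSWp := SW_pos w (2 * X)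
    refine ⟨fun x => if (∃ y ∈ Finset.Ico 1 N, x = (y : ℤ) ∧ y0 + W * y ∈ A) then
      lamr W z (X + y0 + W * x) * lamr W z (X - y0 - W * x) / SW w (2 * X) else 0, ?_, ?_, ?_⟩
    · refine Or.inr ⟨fun x => ?_, Or.inl ⟨X + y0, X - y0, ?_, ?_, ?_, fun x => ?_⟩⟩
      · simp only
        split_ifs
        · exact div_nonneg (mul_nonneg (R2_lamr_nonneg _ _ _) (R2_lamr_nonneg _ _ _)) hSWp.le
        · exact le_rfl
      · have h1 : (n : ℤ) < W * N + W := by exact_mod_cast hnWN
        have h2 : (X : ℤ) ≤ n := by exact_mod_cast hX.2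
        have h3 : (y0 : ℤ) < W := by exact_mod_cast hy0.1
        have h4 : (W : ℤ) * 1 ≤ W * N := by
          exact_mod_cast Nat.mul_le_mul_left W hNpos
        have h5 : (0 : ℤ) ≤ X := by positivity
        have h6 : (0 : ℤ) ≤ y0 := by positivity
        rw [abs_le]
        constructor <;> nlinarith
      · have h1 : (n : ℤ) < W * N + W := by exact_mod_cast hnWN
        have h2 : (X : ℤ) ≤ n := by exact_mod_cast hX.2
        have h3 : (y0 : ℤ) < W := by exact_mod_cast hy0.1
        have h4 : (W : ℤ) * 1 ≤ W * N := by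
          exact_mod_cast Nat.mul_le_mul_left W hNpos
        have h5 : (0 : ℤ) ≤ X := by positivity
        have h6 : (0 : ℤ) ≤ y0 := by positivity
        rw [abs_le]
        constructor <;> nlinarith
      · have h1 : (1 : ℤ) ≤ X := by exact_mod_cast hX.1
        intro h
        have : (X : ℤ) + y0 + (X - y0) = 2 * X := by ring
        omega
      · simp only
        have e1 : ((X : ℤ) + y0) + ((X : ℤ) - y0) = 2 * X := by ring
        rw [e1]
        split_ifs
        · exact le_rfl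
        · exact div_nonneg (mul_nonneg (R2_lamr_nonneg _ _ _) (R2_lamr_nonneg _ _ _)) hSWp.le
    · intro x hx
      simp only at hx
      by_contra hno
      rw [if_neg hno] at hx
      exact hx rfl
    · rw [sum_Ico_int]
      have h1 : ∑ y ∈ range N, T y0 y / SW w (2 * X) ≤ ∑ m ∈ range N,
          (if (∃ y ∈ Finset.Ico 1 N, ((m : ℕ) : ℤ) = (y : ℤ) ∧ y0 + W * y ∈ A) then
            lamr W z (X + y0 + W * (m : ℤ)) * lamr W z (X - y0 - W * (m : ℤ)) / SW w (2 * X)
            else 0) := by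
        apply sum_le_sum
        intro m hm
        rw [mem_range] at hm
        rw [hT]
        simp only
        by_cases h2 : 1 ≤ m ∧ y0 + W * m ∈ A
        · rw [if_pos h2, if_pos ⟨m, mem_Ico.2 ⟨h2.1, hm⟩, rfl, h2.2⟩]
        · rw [if_neg h2, zero_div]
          split_ifs
          · exact div_nonneg (mul_nonneg (R2_lamr_nonneg _ _ _) (R2_lamr_nonneg _ _ _)) hSWp.le
          · exact le_rfl
      refine le_trans ?_ h1
      rw [← sum_div, le_div_iff₀ hSWp]
      exact hlt.le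
  -- the neighbours kept
  set U' := A.filter (fun u => W ≤ u ∧ u < W * N ∧ Nat.sqrt n < Nat.dist X u) with hU'
  have hUc : (A.card : ℝ) ≤ U'.card + (((2 * W : ℕ) : ℝ) + 2 * Real.sqrt n + 1) := by
    have h1 : A ⊆ U' ∪ (Finset.Icc (W * N) n ∪ (Finset.Icc (X - Nat.sqrt n) (X + Nat.sqrt n) ∪ range W)) := by
      intro u hu
      rw [mem_union, mem_union, mem_union, hU', mem_filter, mem_Icc, mem_Icc, mem_range]
      by_cases h2 : W ≤ u ∧ u < W * N ∧ Nat.sqrt n < Nat.dist X u
      · exact Or.inl ⟨hu, h2⟩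
      · right
        have hu2 := hA hu
        rw [mem_Icc] at hu2
        by_cases h3 : W ≤ u
        · by_cases h4 : u < W * N
          · right; left
            have h5 : ¬ Nat.sqrt n < Nat.dist X u := fun h => h2 ⟨h3, h4, h⟩
            unfold Nat.dist at h5
            omega
          · left; exact ⟨by omega, hu2.2⟩
        · right; right; omega
    have h2 := (card_le_card h1).trans ((card_union_le _ _).trans (Nat.add_le_add_left
      ((card_union_le _ _).trans (Nat.add_le_add_left (card_union_le _ _) _)) _))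
    rw [Nat.card_Icc, Nat.card_Icc, card_range] at h2
    have h3 : n + 1 - W * N ≤ W := by omega
    have h4 : X + Nat.sqrt n + 1 - (X - Nat.sqrt n) ≤ 2 * Nat.sqrt n + 1 := by omega
    have h5 : A.card ≤ U'.card + (2 * W + (2 * Nat.sqrt n + 1)) := by omega
    have h6 : (Nat.sqrt n : ℝ) ≤ Real.sqrt n := Real.nat_sqrt_le_real_sqrt
    have h7 : (A.card : ℝ) ≤ U'.card + (((2 * W : ℕ) : ℝ) + (2 * Nat.sqrt n + 1)) := by
      exact_mod_cast h5
    linarith
  have hU'c : 4 / 5 * ε * SH X * (n / Real.log n ^ 2) ≤ (U'.card : ℝ) := by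
    have h2 : ε * SH X * n / Real.log n ^ 2 = ε * SH X * (n / Real.log n ^ 2) := by ring
    rw [h2] at hdeg
    have h3 : 0 ≤ (n : ℝ) / Real.log n ^ 2 := by positivity
    have h4 : ε / 5 * (n / Real.log n ^ 2) ≤ ε / 5 * SH X * (n / Real.log n ^ 2) := by
      have : 0 ≤ ε / 5 * (n / Real.log n ^ 2) := by positivity
      nlinarith
    nlinarith
  set c : ℝ := ((Nat.totient W : ℝ) / W) ^ 2 * (Real.log n ^ 2 / 4) with hc
  have hU'm : ∀ u ∈ U', u % W ∈ Cls ∧ u / W < N ∧ c ≤ T (u % W) (u / W) := by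
    intro u hu
    rw [hU', mem_filter] at hu
    obtain ⟨huA, hWu, huN, hdist⟩ := hu
    have hr := hAr u huA
    have hmod : (u : ℤ) = ((u % W : ℕ) : ℤ) + W * ((u / W : ℕ) : ℤ) := by
      have := Nat.mod_add_div u W
      exact_mod_cast this.symm
    have hdle : Nat.dist X u ≤ X + u := by unfold Nat.dist; omega
    have hcopr : ∀ v : ℤ, (∀ p : ℕ, p.Prime → (p : ℤ) ∣ v → (n : ℝ) ^ (1 / 10 : ℝ) ≤ p) →
        IsCoprime v (W : ℤ) := by
      intro v hv
      apply hIsW.isCoprime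
      intro p hp h0
      rw [ZMod.intCast_zmod_eq_zero_iff_dvd] at h0
      have hp' := mem_primesUpTo.mp hp
      have h1 := hv p hp'.1 h0
      have h2 : (p : ℝ) ≤ w := by exact_mod_cast hp'.2
      linarith
    have hrg : ∀ v : ℤ, (∀ p : ℕ, p.Prime → (p : ℤ) ∣ v → (n : ℝ) ^ (1 / 10 : ℝ) ≤ p) →
        Rg z v := by
      intro v hv p hp hd
      have h1 := hv p hp hd
      have h2 : (z : ℝ) < p := by linarith
      exact_mod_cast h2
    have hv1 : ∀ p : ℕ, p.Prime → (p : ℤ) ∣ (X : ℤ) + u → (n : ℝ) ^ (1 / 10 : ℝ) ≤ p :=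
      fun p hp h => hr p hp (Or.inl h)
    have hv2 : ∀ p : ℕ, p.Prime → (p : ℤ) ∣ (X : ℤ) - u → (n : ℝ) ^ (1 / 10 : ℝ) ≤ p :=
      fun p hp h => hr p hp (Or.inr h)
    have habs : (((X : ℤ) - u).natAbs) = Nat.dist X u := by
      unfold Nat.dist; omega
    have habs1 : (((X : ℤ) + u).natAbs) = X + u := by omega
    have e1 : (X : ℤ) + ((u % W : ℕ) : ℤ) + W * ((u / W : ℕ) : ℤ) = (X : ℤ) + u := by
      linarith [hmod]
    have e2 : (X : ℤ) - ((u % W : ℕ) : ℤ) - W * ((u / W : ℕ) : ℤ) = (X : ℤ) - u := by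
      linarith [hmod]
    refine ⟨?_, ?_, ?_⟩
    · rw [hCls, mem_filter, mem_range]
      refine ⟨Nat.mod_lt _ hWpos, ?_, ?_⟩
      · have h3 : (X : ℤ) + ((u % W : ℕ) : ℤ) = ((X : ℤ) + u) + (W : ℤ) * (-((u / W : ℕ) : ℤ)) := by
          rw [← e1]; ring
        rw [h3]
        exact IsCoprime.add_mul_left_left (hcopr _ hv1) _
      · have h3 : (X : ℤ) - ((u % W : ℕ) : ℤ) = ((X : ℤ) - u) + (W : ℤ) * (((u / W : ℕ) : ℤ)) := by
          rw [← e2]; ring
        rw [h3]
        exact IsCoprime.add_mul_left_left (hcopr _ hv2) _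
    · exact Nat.div_lt_of_lt_mul huN
    · have h1 : 1 ≤ u / W ∧ u % W + W * (u / W) ∈ A := by
        refine ⟨(Nat.one_le_div_iff hWpos).2 hWu, ?_⟩
        rw [Nat.mod_add_div]
        exact huA
      rw [hT]
      simp only
      rw [if_pos h1, e1, e2]
      unfold lamr
      rw [if_pos (hrg _ hv1), if_pos (hrg _ hv2), habs, habs1]
      have hlow : ∀ v : ℕ, Nat.sqrt n < v → Real.log n / 2 ≤ Real.log v := by
        intro v hv
        have h4 : Real.sqrt n ≤ v := by
          have h5 : n < (Nat.sqrt n + 1) ^ 2 := by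
            have := Nat.lt_succ_sqrt n
            rw [pow_two]; exact this
          have h6 : n ≤ v ^ 2 := by
            have : (Nat.sqrt n + 1) ^ 2 ≤ v ^ 2 := Nat.pow_le_pow_left hv 2
            omega
          rw [Real.sqrt_le_left (by positivity)]
          exact_mod_cast h6
        have h5 : 0 < Real.sqrt n := Real.sqrt_pos.2 (by linarith)
        calc Real.log n / 2 = Real.log (Real.sqrt n) := (Real.log_sqrt (by linarith)).symm
          _ ≤ Real.log v := Real.log_le_log h5 h4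
      have hl1 := hlow _ (lt_of_lt_of_le hdist hdle)
      have hl2 := hlow _ hdist
      have hφ : (0 : ℝ) ≤ (Nat.totient W : ℝ) / W := by positivity
      calc c = ((Nat.totient W : ℝ) / W * (Real.log n / 2)) * ((Nat.totient W : ℝ) / W * (Real.log n / 2)) := by
            rw [hc]; ring
        _ ≤ _ := by
            apply mul_le_mul (mul_le_mul_of_nonneg_left hl1 hφ) (mul_le_mul_of_nonneg_left hl2 hφ)
            · positivity
            · exact mul_nonneg hφ (le_trans (by positivity) hl1)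
  -- summation
  have hsum1 : (U'.card : ℝ) * c ≤ ∑ y0 ∈ Cls, ∑ y ∈ range N, T y0 y := by
    rw [← sum_product']
    have hinj : Set.InjOn (fun u : ℕ => (u % W, u / W)) (U' : Set ℕ) := by
      intro u _ v _ h
      simp only [Prod.mk.injEq] at h
      rw [← Nat.mod_add_div u W, ← Nat.mod_add_div v W, h.1, h.2]
    calc (U'.card : ℝ) * c = ∑ _u ∈ U', c := by rw [sum_const, nsmul_eq_mul]
      _ ≤ ∑ u ∈ U', T (u % W) (u / W) := sum_le_sum (fun u hu => (hU'm u hu).2.2)
      _ = ∑ q ∈ U'.image (fun u : ℕ => (u % W, u / W)), T q.1 q.2 := by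
          rw [sum_image hinj]
      _ ≤ ∑ q ∈ Cls ×ˢ range N, T q.1 q.2 := by
          apply sum_le_sum_of_subset_of_nonneg
          · intro q hq
            rw [mem_image] at hq
            obtain ⟨u, hu, rfl⟩ := hq
            rw [mem_product, mem_range]
            exact ⟨(hU'm u hu).1, (hU'm u hu).2.1⟩
          · intro q _ _
            exact hT0 _ _
  have hsum2 : ∑ y0 ∈ Cls, ∑ y ∈ range N, T y0 y ≤ Cls.card * (ε / 40 * N * SW w (2 * X)) := by
    rw [← nsmul_eq_mul]
    apply sum_le_card_nsmul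
    exact hcon'
  have hsing := gr2_singular w hw X hX.1
  rw [← hW, ← hCls] at hsing
  set Φ : ℝ := (Nat.totient W : ℝ) ^ 2 / W with hΦ
  have hΦpos : 0 < Φ := by
    have : 0 < (Nat.totient W : ℝ) := by exact_mod_cast Nat.totient_pos.2 hWpos
    positivity
  have hup : (U'.card : ℝ) * c ≤ ε / 20 * N * (SH X * Φ) := by
    have h1 : (U'.card : ℝ) * c ≤ (ε / 40 * N) * (Cls.card * SW w (2 * X)) := by
      calc (U'.card : ℝ) * c ≤ Cls.card * (ε / 40 * N * SW w (2 * X)) := le_trans hsum1 hsum2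
        _ = _ := by ring
    have h2 : (ε / 40 * N) * (Cls.card * SW w (2 * X)) ≤ (ε / 40 * N) * (2 * SH X * Φ) :=
      mul_le_mul_of_nonneg_left hsing (by positivity)
    linarith
  have hlow : ε / 5 * N * (SH X * Φ) ≤ (U'.card : ℝ) * c := by
    have hc0 : 0 ≤ c := by rw [hc]; positivity
    have h1 : 4 / 5 * ε * SH X * (n / Real.log n ^ 2) * c ≤ (U'.card : ℝ) * c :=
      mul_le_mul_of_nonneg_right hU'c hc0
    refine le_trans ?_ h1
    have h2 : 4 / 5 * ε * SH X * (n / Real.log n ^ 2) * c = ε / 5 * SH X * (Φ / W) * n := by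
      rw [hc, hΦ]
      field_simp
    rw [h2]
    have h3 : ε / 5 * SH X * (Φ / W) * (N * W) ≤ ε / 5 * SH X * (Φ / W) * n :=
      mul_le_mul_of_nonneg_left hNW (by positivity)
    refine le_trans (le_of_eq ?_) h3
    field_simp
  have hfin : 0 < ε * N * (SH X * Φ) := by positivity
  nlinarith

end Pool.Agent.Lib.H18C
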