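import Pool.Agent.Lib.H18C.Defs

/-!
# Chunk R2Z: from a large set of primes to a class
-/

open Finset Pool.Agent.Lib.Sieve Pool.Agent.Lib.GoldbachGraph Pool.Agent.Lib.H18GB

namespace Pool.Agent.Lib.H18C

/-- `W = primorial w`, `N = n / W`. The primes `y ∈ A` with `y ≥ √n` (so `y > w`) and `W ≤ y < W N`, all but
`√n + 2 W` of the elements of `A`, are in the `φ(W)` classes `y0` prime to `W`, and have
`lamv W y ≥ (φ(W)/W) (log n)/2`. So for some class the weight `F(y) = lamv W (y0 + W y)` if
`1 ≤ y < N`, `y0 + W y ∈ A`, and `0` otherwise has sum at least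
`(1/φ(W)) (φ(W)/W) ((log n)/2) (|A| - √n - 2 W) ≥ (ε/4) n/W`. -/
theorem gr2Z (ε : ℝ) (hε : 0 < ε) (w : ℕ) (hw : 3 ≤ w) : ∃ n0 : ℕ, ∀ n : ℕ, n0 ≤ n →
    ∀ A ⊆ Finset.Icc 1 n, (∀ y ∈ A, y.Prime) → ε * n / Real.log n ≤ A.card →
    ∃ y0 : ℕ, Comp (primorial w) 0 y0 ∧
      StartW w (primorial w) (n / primorial w) A y0 (ε / 4) := by
  classical
  set W := primorial w with hW
  have hWpos : 0 < W := primorial_pos w
  obtain ⟨n0, hn0⟩ := gr2_asym (2 * W) (5 / 2 * ε) (by positivity)
  refine ⟨n0, fun n hn A hA hAp hdeg => ?_⟩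
  obtain ⟨hasy, hWs, hn3⟩ := hn0 n (by omega)
  set N := n / W with hN
  have hWr : (0 : ℝ) < W := by exact_mod_cast hWpos
  have hn3r : (3 : ℝ) ≤ n := by exact_mod_cast hn3
  have hlog1 : 1 ≤ Real.log n := by
    rw [Real.le_log_iff_exp_le (by linarith)]
    have := Real.exp_one_lt_d9
    linarith
  have hlog : 0 < Real.log n := by linarith
  have hWs' : W ≤ Nat.sqrt n := by omega
  have hWn : W ≤ n := le_trans hWs' (Nat.sqrt_le_self n)
  have hNpos : 0 < N := Nat.div_pos hWn hWpos
  have hNr : (0 : ℝ) < N := by exact_mod_cast hNpos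
  have hNW : (N : ℝ) * W ≤ n := by exact_mod_cast Nat.div_mul_le_self n W
  have hnWN : n < W * N + W := by
    have h1 := Nat.div_add_mod n W
    have h2 := Nat.mod_lt n hWpos
    rw [← hN] at h1
    omega
  -- the weights
  set T : ℕ → ℕ → ℝ := fun y0 y => if 1 ≤ y ∧ y0 + W * y ∈ A then
    lamv W (y0 + W * y) else 0 with hT
  have hT0 : ∀ y0 y, 0 ≤ T y0 y := by
    intro y0 y
    rw [hT]
    simp only
    split_ifs
    · exact gr2_lamv_nonneg _ _
    · exact le_rfl
  set Cls := (range W).filter (fun y : ℕ => W.Coprime y) with hCls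
  have hClsc : Cls.card = W.totient := by rw [hCls, Nat.totient]
  by_contra hcon
  -- each class carries little weight
  have hcon' : ∀ y0 ∈ Cls, ∑ y ∈ range N, T y0 y < ε / 4 * N := by
    intro y0 hy0
    rw [hCls, mem_filter, mem_range] at hy0
    by_contra hlt
    push Not at hlt
    apply hcon
    have hco : IsCoprime (y0 : ℤ) (W : ℤ) := Nat.isCoprime_iff_coprime.2 hy0.2.symm
    refine ⟨y0, ⟨by rw [zero_add]; exact hco, by rw [zero_sub]; exact hco.neg_left⟩, hy0.1, ?_⟩
    refine ⟨fun x => if (∃ y ∈ Finset.Ico 1 N, x = (y : ℤ) ∧ y0 + W * y ∈ A) then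
      lamv W (y0 + W * x) else 0, ?_, ?_, ?_⟩
    · refine Or.inr ⟨fun x => ?_, Or.inr ⟨y0, ?_, fun x => ?_⟩⟩
      · simp only
        split_ifs
        · exact gr2_lamv_nonneg _ _
        · exact le_rfl
      · have h3 : (y0 : ℤ) < W := by exact_mod_cast hy0.1
        have h6 : (0 : ℤ) ≤ y0 := by positivity
        rw [abs_le]
        constructor <;> linarith
      · simp only
        split_ifs
        · exact le_rfl
        · exact gr2_lamv_nonneg _ _
    · intro x hx
      simp only at hx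
      by_contra hno
      rw [if_neg hno] at hx
      exact hx rfl
    · rw [sum_Ico_int]
      refine le_trans hlt ?_
      apply sum_le_sum
      intro m hm
      rw [mem_range] at hm
      rw [hT]
      simp only
      by_cases h2 : 1 ≤ m ∧ y0 + W * m ∈ A
      · rw [if_pos h2, if_pos ⟨m, mem_Ico.2 ⟨h2.1, hm⟩, rfl, h2.2⟩]
      · rw [if_neg h2]
        split_ifs
        · exact gr2_lamv_nonneg _ _
        · exact le_rfl
  -- the primes kept
  set U' := A.filter (fun u => W ≤ u ∧ u < W * N ∧ Nat.sqrt n < u) with hU'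
  have hUc : (A.card : ℝ) ≤ U'.card + (((2 * W : ℕ) : ℝ) + 2 * Real.sqrt n + 1) := by
    have h1 : A ⊆ U' ∪ (Finset.Icc (W * N) n ∪ (range (Nat.sqrt n + 1) ∪ range W)) := by
      intro u hu
      rw [mem_union, mem_union, mem_union, hU', mem_filter, mem_Icc, mem_range, mem_range]
      by_cases h2 : W ≤ u ∧ u < W * N ∧ Nat.sqrt n < u
      · exact Or.inl ⟨hu, h2⟩
      · right
        have hu2 := hA hu
        rw [mem_Icc] at hu2
        by_cases h3 : W ≤ u
        · by_cases h4 : u < W * N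
          · right; left
            have h5 : ¬ Nat.sqrt n < u := fun h => h2 ⟨h3, h4, h⟩
            omega
          · left; exact ⟨by omega, hu2.2⟩
        · right; right; omega
    have h2 := (card_le_card h1).trans ((card_union_le _ _).trans (Nat.add_le_add_left
      ((card_union_le _ _).trans (Nat.add_le_add_left (card_union_le _ _) _)) _))
    rw [Nat.card_Icc, card_range, card_range] at h2
    have h3 : n + 1 - W * N ≤ W := by omega
    have h5 : A.card ≤ U'.card + (2 * W + (2 * Nat.sqrt n + 1)) := by omega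
    have h6 : (Nat.sqrt n : ℝ) ≤ Real.sqrt n := Real.nat_sqrt_le_real_sqrt
    have h7 : (A.card : ℝ) ≤ U'.card + (((2 * W : ℕ) : ℝ) + (2 * Nat.sqrt n + 1)) := by
      exact_mod_cast h5
    linarith
  have hU'c : ε / 2 * (n / Real.log n) ≤ (U'.card : ℝ) := by
    have h2 : ε * n / Real.log n = ε * (n / Real.log n) := by ring
    rw [h2] at hdeg
    have h3 : (n : ℝ) / Real.log n ^ 2 ≤ n / Real.log n := by
      apply div_le_div_of_nonneg_left (by linarith) hlog
      nlinarith
    have h4 : 5 / 2 * ε / 5 * (n / Real.log n ^ 2) ≤ 5 / 2 * ε / 5 * (n / Real.log n) :=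
      mul_le_mul_of_nonneg_left h3 (by positivity)
    linarith
  set c : ℝ := ((Nat.totient W : ℝ) / W) * (Real.log n / 2) with hc
  have hU'm : ∀ u ∈ U', u % W ∈ Cls ∧ u / W < N ∧ c ≤ T (u % W) (u / W) := by
    intro u hu
    rw [hU', mem_filter] at hu
    obtain ⟨huA, hWu, huN, hsq⟩ := hu
    have hp := hAp u huA
    have hmod : (u : ℤ) = ((u % W : ℕ) : ℤ) + W * ((u / W : ℕ) : ℤ) := by
      have := Nat.mod_add_div u W
      exact_mod_cast this.symm
    refine ⟨?_, ?_, ?_⟩
    · rw [hCls, mem_filter, mem_range]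
      refine ⟨Nat.mod_lt _ hWpos, ?_⟩
      have h1 : u.Coprime W := by
        rw [hp.coprime_iff_not_dvd]
        intro h
        have := Nat.le_of_dvd hWpos h
        omega
      rw [Nat.coprime_comm]
      have h2 : Nat.gcd (u % W) W = Nat.gcd u W := by
        rw [← Nat.gcd_rec, Nat.gcd_comm]
      rw [Nat.Coprime, h2]
      exact h1
    · exact Nat.div_lt_of_lt_mul huN
    · have h1 : 1 ≤ u / W ∧ u % W + W * (u / W) ∈ A := by
        refine ⟨(Nat.one_le_div_iff hWpos).2 hWu, ?_⟩
        rw [Nat.mod_add_div]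
        exact huA
      rw [hT]
      simp only
      rw [if_pos h1, ← hmod]
      unfold lamv
      rw [Int.natAbs_natCast, if_pos hp]
      have h4 : Real.sqrt n ≤ u := by
        have h5 : n < (Nat.sqrt n + 1) ^ 2 := by
          have := Nat.lt_succ_sqrt n
          rw [pow_two]; exact this
        have h6 : n ≤ u ^ 2 := by
          have : (Nat.sqrt n + 1) ^ 2 ≤ u ^ 2 := Nat.pow_le_pow_left hsq 2
          omega
        rw [Real.sqrt_le_left (by positivity)]
        exact_mod_cast h6
      have h5 : 0 < Real.sqrt n := Real.sqrt_pos.2 (by linarith)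
      have h6 : Real.log n / 2 ≤ Real.log u := by
        calc Real.log n / 2 = Real.log (Real.sqrt n) := (Real.log_sqrt (by linarith)).symm
          _ ≤ Real.log u := Real.log_le_log h5 h4
      exact mul_le_mul_of_nonneg_left h6 (by positivity)
  -- summation
  have hsum1 : (U'.card : ℝ) * c ≤ ∑ y0 ∈ Cls, ∑ y ∈ range N, T y0 y := by
    rw [← sum_product']
    have hinj : Set.InjOn (fun u : ℕ => (u % W, u / W)) (U' : Set ℕ) := by
      intro u _ v _ h
      simp only [Prod.mk.injEq] at h
      rw [← Nat.mod_add_div u W, ← Nat.mod_add_div v W, h.1, h.2]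
    calc (U'.card : ℝ) * c = ∑ _u ∈ U', c := by rw [sum_const, nsmul_eq_mul]
      _ ≤ ∑ u ∈ U', T (u % W) (u / W) := sum_le_sum (fun u hu => (hU'm u hu).2.2)
      _ = ∑ q ∈ U'.image (fun u : ℕ => (u % W, u / W)), T q.1 q.2 := by
          rw [sum_image hinj]
      _ ≤ ∑ q ∈ Cls ×ˢ range N, T q.1 q.2 := by
          apply sum_le_sum_of_subset_of_nonneg
          · intro q hq
            rw [mem_image] at hq
            obtain ⟨u, hu, rfl⟩ := hq
            rw [mem_product, mem_range]
            exact ⟨(hU'm u hu).1, (hU'm u hu).2.1⟩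
          · intro q _ _
            exact hT0 _ _
  have hφ : 0 < W.totient := Nat.totient_pos.2 hWpos
  have hne : Cls.Nonempty := by
    rw [← card_pos, hClsc]
    exact hφ
  have hsum2 : ∑ y0 ∈ Cls, ∑ y ∈ range N, T y0 y < W.totient * (ε / 4 * N) := by
    calc ∑ y0 ∈ Cls, ∑ y ∈ range N, T y0 y < ∑ _y0 ∈ Cls, (ε / 4 * N) :=
          sum_lt_sum_of_nonempty hne hcon'
      _ = W.totient * (ε / 4 * N) := by rw [sum_const, nsmul_eq_mul, hClsc]
  have hlow : W.totient * (ε / 4 * N) ≤ (U'.card : ℝ) * c := by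
    have hc0 : 0 ≤ c := by rw [hc]; positivity
    have h1 : ε / 2 * (n / Real.log n) * c ≤ (U'.card : ℝ) * c :=
      mul_le_mul_of_nonneg_right hU'c hc0
    refine le_trans ?_ h1
    have h2 : ε / 2 * (n / Real.log n) * c = (W.totient : ℝ) * (ε / 4 * (n / W)) := by
      rw [hc]
      field_simp
      ring
    rw [h2]
    have h3 : (N : ℝ) ≤ n / W := by
      rw [le_div_iff₀ hWr]
      exact hNW
    have h4 : (0 : ℝ) ≤ W.totient := Nat.cast_nonneg _
    have h5 : ε / 4 * (N : ℝ) ≤ ε / 4 * (n / W) := mul_le_mul_of_nonneg_left h3 (by positivity)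
    exact mul_le_mul_of_nonneg_left h5 h4
  linarith

end Pool.Agent.Lib.H18C
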