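import Pool.Agent.Lib.H18C.RB
import Pool.Agent.Lib.H18GB.GRAux

/-!
# Chunk R3: one step from a large class
-/

open Finset Pool.Agent.Lib.Sieve Pool.Agent.Lib.GoldbachGraph Pool.Agent.Lib.H18GB

namespace Pool.Agent.Lib.H18C

/-- Copy of `gr3` (file `H18GB/GR3.lean`; see also `ga1` in `H18GB2/GA.lean`): `ssR` with the weight `F` of
`StartW` and `G = 1_B` (admissible, bounded by `1`), `σ = 1` and `σ = -1`, `r1 = y0 + z0`,
`r2 = σ (y0 - z0)`. If there is no edge then `(∑ F) (|B| - 1) ≤ 2 ε' N^2` (`no_edge_bound` in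
`GRAux.lean`, `log_sq_le`; as in `ga1`). -/
theorem gr3R (ε : ℝ) (hε : 0 < ε) : ∃ w0 : ℕ, ∀ w W : ℕ, w0 ≤ w → IsW w W → ∃ N0 : ℕ,
    ∀ N : ℕ, N0 ≤ N → ∀ (A : Finset ℕ) (y0 z0 : ℕ), z0 < W → Comp W z0 y0 →
    StartW w W N A y0 ε → ∀ B : Finset ℕ, B ⊆ Finset.Ico 1 N → ε * N ≤ B.card →
    ∃ y ∈ Finset.Ico 1 N, y0 + W * y ∈ A ∧ ∃ z ∈ B, hadj (y0 + W * y) (z0 + W * z) := by
  classical
  obtain ⟨w1, hw1⟩ := ssR (ε ^ 2 / 4) (by positivity)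
  refine ⟨max w1 2, fun w W hw hW => ?_⟩
  obtain ⟨N1, hN1⟩ := hw1 w W (le_trans (le_max_left _ _) hw) hW
  refine ⟨max N1 1, fun N hN A y0 z0 hz0 hzy hS B hB hBc => ?_⟩
  have hNN1 : N1 ≤ N := le_trans (le_max_left _ _) hN
  have hNpos : 1 ≤ N := le_trans (le_max_right _ _) hN
  have hNR : (1 : ℝ) ≤ N := by exact_mod_cast hNpos
  have h2W : 2 ∣ W := (hW.2 2 Nat.prime_two).mpr (le_trans (le_max_right _ _) hw)
  obtain ⟨hy0, F, hFA, hFs, hFsum⟩ := hS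
  by_contra hcon
  push Not at hcon
  have hyz : Comp W (y0 : ℤ) (z0 : ℤ) := comp_comm hzy
  have hF0 := RS_nonneg hFA
  have hy0' : (y0 : ℤ) < W := by exact_mod_cast hy0
  have hz0' : (z0 : ℤ) < W := by exact_mod_cast hz0
  have hr1 : |((y0 : ℤ) + z0)| < 2 * W := by
    rw [abs_lt]; constructor <;> omega
  have hr2 : |((y0 : ℤ) - z0)| < 2 * W := by
    rw [abs_lt]; constructor <;> omega
  have hr2' : |(-((y0 : ℤ) - z0))| < 2 * W := by rw [abs_neg]; exact hr2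
  have hGA : AdmR w W N (indZ B) := Or.inl ⟨indZ_nonneg B, Or.inl fun x =>
    (le_abs_self _).trans (indZ_abs_le B x)⟩
  have k1 := hN1 N hNN1 ((y0 : ℤ) + z0) ((y0 : ℤ) - z0) 1 hr1 hyz.1 hr2 hyz.2 (Or.inl rfl)
    F (indZ B) F (indZ B) hFA hGA (fun x => (abs_of_nonneg (hF0 x)).le)
    (fun x => (abs_of_nonneg (indZ_nonneg B x)).le)
  have k2 := hN1 N hNN1 ((y0 : ℤ) + z0) (-((y0 : ℤ) - z0)) (-1) hr1 hyz.1 hr2' hyz.2.neg_left
    (Or.inr rfl) F (indZ B) F (indZ B) hFA hGA (fun x => (abs_of_nonneg (hF0 x)).le)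
    (fun x => (abs_of_nonneg (indZ_nonneg B x)).le)
  have hedge : ∀ x ∈ Finset.Ico (0 : ℤ) N, ∀ y ∈ Finset.Ico (0 : ℤ) N,
      F x * indZ B y ≠ 0 →
      lamv W (((y0 : ℤ) + z0) + W * (x + y)) * lamv W (((y0 : ℤ) - z0) + W * (x - y)) = 0 := by
    intro x _ y _ hne
    by_contra hc
    obtain ⟨hFx, hGy⟩ := mul_ne_zero_iff.mp hne
    obtain ⟨z, hzB, rfl⟩ := indZ_ne hGy
    obtain ⟨m, hm, rfl, hmA⟩ := hFs x hFx
    exact hcon m hm hmA z hzB (hadj_of_lamv h2W hyz hc)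
  have hbound := no_edge_bound hF0 (indZ_nonneg B) hedge k1 k2
  rw [sum_indZ hB] at hbound
  have h9 : ε * N * (ε * N) ≤ 2 * (ε ^ 2 / 4 * N ^ 2) := by
    refine le_trans ?_ hbound
    apply mul_le_mul hFsum hBc (by positivity)
    exact Finset.sum_nonneg fun x _ => hF0 x
  have h10 : 0 < ε ^ 2 * (N : ℝ) ^ 2 := by positivity
  nlinarith

end Pool.Agent.Lib.H18C
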