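import Pool.Agent.Lib.H18C.RB
import Pool.Agent.Lib.H18GB2.GA

/-!
# Chunk RA: from a large class to almost all links
-/

open Finset Pool.Agent.Lib.Sieve Pool.Agent.Lib.GoldbachGraph Pool.Agent.Lib.H18GB

namespace Pool.Agent.Lib.H18C

open Classical in
/-- Copy of `ga1` (file `H18GB2/GA.lean`) with the weight `F` of `StartW` and `ssR` instead of `ss`;
`hadj X (y0 + W y)` becomes `y0 + W y ∈ A`. -/
theorem ga1R (ε : ℝ) (hε : 0 < ε) : ∃ w0 : ℕ, ∀ w W : ℕ, w0 ≤ w → IsW w W → ∃ N0 : ℕ,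
    ∀ N : ℕ, N0 ≤ N → ∀ (A : Finset ℕ) (y0 v0 d : ℕ), v0 + 3 < W →
    (d = 0 ∨ d = 3) → IsCoprime (2 * (v0 : ℤ) + 3) W → Comp W (v0 + d) y0 →
    StartW w W N A y0 ε →
    ∑ v ∈ (Finset.Ico 1 N).filter (fun v => ¬ ∃ y ∈ Finset.Ico 1 N, y0 + W * y ∈ A ∧
      hadj (y0 + W * y) (v0 + d + W * v)), sg W v0 v ≤ ε * N := by
  obtain ⟨w1, hw1⟩ := ssR (ε ^ 2 / 2) (by positivity)
  refine ⟨max w1 2, fun w W hw hW => ?_⟩
  obtain ⟨N1, hN1⟩ := hw1 w W (le_trans (le_max_left _ _) hw) hW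
  refine ⟨max N1 1, fun N hN A y0 v0 d hv0 hd _ hvy hS => ?_⟩
  have hNN1 : N1 ≤ N := le_trans (le_max_left _ _) hN
  have hNpos : 1 ≤ N := le_trans (le_max_right _ _) hN
  have hNR : (1 : ℝ) ≤ N := by exact_mod_cast hNpos
  have h2W : 2 ∣ W := (hW.2 2 Nat.prime_two).mpr (le_trans (le_max_right _ _) hw)
  obtain ⟨hy0, F, hFA, hFs, hFsum⟩ := hS
  set Z := (Finset.Ico 1 N).filter (fun v => ¬ ∃ y ∈ Finset.Ico 1 N, y0 + W * y ∈ A ∧
      hadj (y0 + W * y) (v0 + d + W * v)) with hZdef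
  have hZsub : Z ⊆ Finset.Ico 1 N := Finset.filter_subset _ _
  set z0 : ℕ := v0 + d with hz0def
  have hz0 : z0 < W := by rcases hd with rfl | rfl <;> omega
  have hyz : Comp W (y0 : ℤ) (z0 : ℤ) := by
    have h := comp_comm hvy
    have e : ((z0 : ℕ) : ℤ) = (v0 : ℤ) + d := by rw [hz0def]; push_cast; ring
    rw [e]
    exact h
  have hF0 := RS_nonneg hFA
  have hy0' : (y0 : ℤ) < W := by exact_mod_cast hy0
  have hz0' : (z0 : ℤ) < W := by exact_mod_cast hz0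
  have hr1 : |((y0 : ℤ) + z0)| < 2 * W := by
    rw [abs_lt]; constructor <;> omega
  have hr2 : |((y0 : ℤ) - z0)| < 2 * W := by
    rw [abs_lt]; constructor <;> omega
  have hr2' : |(-((y0 : ℤ) - z0))| < 2 * W := by rw [abs_neg]; exact hr2
  -- the second weight
  set G : ℤ → ℝ := fun x => lamv W (2 * W * x + ((2 * v0 + 3 : ℕ) : ℤ)) * indZ Z x with hGdef
  have hG0 : ∀ x, 0 ≤ G x := fun x => mul_nonneg (lamv_nonneg' _ _) (indZ_nonneg _ _)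
  have hGf : ∀ x, G x ≤ lamv W (2 * W * x + ((2 * v0 + 3 : ℕ) : ℤ)) := by
    intro x
    have h1 := indZ_abs_le Z x
    rw [abs_of_nonneg (indZ_nonneg _ _)] at h1
    exact mul_le_of_le_one_right (lamv_nonneg' _ _) h1
  have hGA : AdmR w W N G := by
    refine Or.inl ⟨hG0, Or.inr (Or.inl ⟨((2 * v0 + 3 : ℕ) : ℤ), ?_, hGf⟩)⟩
    rw [abs_of_nonneg (Int.natCast_nonneg _)]
    push_cast
    omega
  have k1 := hN1 N hNN1 ((y0 : ℤ) + z0) ((y0 : ℤ) - z0) 1 hr1 hyz.1 hr2 hyz.2 (Or.inl rfl)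
    F G F G hFA hGA (fun x => (abs_of_nonneg (hF0 x)).le) (fun x => (abs_of_nonneg (hG0 x)).le)
  have k2 := hN1 N hNN1 ((y0 : ℤ) + z0) (-((y0 : ℤ) - z0)) (-1) hr1 hyz.1 hr2' hyz.2.neg_left
    (Or.inr rfl) F G F G hFA hGA (fun x => (abs_of_nonneg (hF0 x)).le)
    (fun x => (abs_of_nonneg (hG0 x)).le)
  have hedge : ∀ x ∈ Finset.Ico (0 : ℤ) N, ∀ y ∈ Finset.Ico (0 : ℤ) N,
      F x * G y ≠ 0 →
      lamv W (((y0 : ℤ) + z0) + W * (x + y)) * lamv W (((y0 : ℤ) - z0) + W * (x - y)) = 0 := by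
    intro x _ y _ hne
    by_contra hc
    obtain ⟨hFx, hGy⟩ := mul_ne_zero_iff.mp hne
    obtain ⟨z, hzB, rfl⟩ := indZ_ne (right_ne_zero_of_mul hGy)
    obtain ⟨m, hm, rfl, hmA⟩ := hFs x hFx
    have e2 : hadj (y0 + W * m) (z0 + W * z) := hadj_of_lamv h2W hyz hc
    exact (Finset.mem_filter.mp hzB).2 ⟨m, hm, hmA, e2⟩
  have hbound := no_edge_bound hF0 hG0 hedge k1 k2
  have hGs : ∑ x ∈ Finset.Ico (0 : ℤ) N, G x = ∑ v ∈ Z, sg W v0 v := by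
    rw [sum_Ico_int]
    have h1 : ∀ n ∈ Finset.range N, G (n : ℤ) = if n ∈ Z then sg W v0 n else 0 := by
      intro n _
      simp only [hGdef]
      rw [indZ_cast, sg_eq]
      split_ifs <;> simp
    rw [Finset.sum_congr rfl h1, Finset.sum_ite_mem]
    apply Finset.sum_congr _ (fun _ _ => rfl)
    apply Finset.inter_eq_right.mpr
    intro n hn
    have := Finset.mem_Ico.mp (hZsub hn)
    exact Finset.mem_range.mpr this.2
  rw [hGs] at hbound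
  have hS0 : 0 ≤ ∑ v ∈ Z, sg W v0 v := Finset.sum_nonneg fun v _ => sg_nonneg _ _ _
  have h9 : ε * N * (∑ v ∈ Z, sg W v0 v) ≤ 2 * (ε ^ 2 / 2 * N ^ 2) :=
    le_trans (mul_le_mul_of_nonneg_right hFsum hS0) hbound
  have h10 : (0 : ℝ) < ε * N := by positivity
  have h11 : ε * N * (∑ v ∈ Z, sg W v0 v) ≤ ε * N * (ε * N) :=
    h9.trans (le_of_eq (by ring))
  exact le_of_mul_le_mul_left h11 h10

end Pool.Agent.Lib.H18C
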