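import Pool.Agent.Lib.H18C.RS

/-!
# Chunk RB: box sums and sparse-sparse estimate for rough weights
-/

open Finset Pool.Agent.Lib.Sieve Pool.Agent.Lib.GoldbachGraph Pool.Agent.Lib.H18GB

namespace Pool.Agent.Lib.H18C

/-- Copy of `bxm` (file `H18GB2/BXM.lean`) with `admR_dom`: `bxm_exists_A` gives `A ≥ C`; apply it with
`C' = max C 16` (in `BxmS` every `C' ≥ C` is allowed), so that `s = C' A ≥ 16`. -/
theorem bxmR (ε : ℝ) (hε : 0 < ε) : ∃ w0 : ℕ, ∀ w W : ℕ, w0 ≤ w → IsW w W → ∃ N0 : ℕ,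
    ∀ N : ℕ, N0 ≤ N → ∀ (r1 r2 σ : ℤ), |r1| < 2 * W → IsCoprime r1 (W : ℤ) → |r2| < 2 * W →
    IsCoprime r2 (W : ℤ) → (σ = 1 ∨ σ = -1) → ∀ (F G : ℤ → ℝ), AdmR w W N F → AdmR w W N G →
    box N (ker W r1 r2 σ) F G ≤ ε * N ^ 4 := by
  obtain ⟨K, hK, hdom⟩ := admR_dom
  obtain ⟨C0, hC0, hall⟩ := bxm_all
  obtain ⟨C, hCd⟩ : ∃ C : ℕ, C = max C0 16 := ⟨_, rfl⟩
  have hC : 2 ≤ C := by omega
  have hCC : C0 ≤ C := by omega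
  have hC16 : 16 ≤ C := by omega
  have hCr : (0 : ℝ) < C := by exact_mod_cast (by omega : 0 < C)
  obtain ⟨A, hCA, hA⟩ := bxm_exists_A C (by omega) (ε ^ 2 / (32 * K ^ 8 * C ^ 2)) (by positivity)
  have hs2 : 16 ≤ C * A := by nlinarith
  have hcond : BxmCond C A K ε := by
    unfold BxmCond
    set s : ℝ := ((C * A : ℕ) : ℝ) with hs
    have hs0 : 0 ≤ s := by positivity
    set τ : ℝ := (2 : ℝ) ^ (-(A : ℝ) / C) with hτ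
    have hτpos : 0 < τ := Real.rpow_pos_of_pos (by norm_num) _
    refine le_of_pow_le_pow_left₀ two_ne_zero (by positivity) ?_
    have e : ((K * s ^ 3) ^ 4 * (C * s ^ 8 * Real.sqrt (2 * τ))) ^ 2 =
        2 * K ^ 8 * C ^ 2 * (τ * s ^ 40) := by
      have : Real.sqrt (2 * τ) ^ 2 = 2 * τ := Real.sq_sqrt (by positivity)
      calc ((K * s ^ 3) ^ 4 * (C * s ^ 8 * Real.sqrt (2 * τ))) ^ 2
          = K ^ 8 * C ^ 2 * s ^ 40 * Real.sqrt (2 * τ) ^ 2 := by ring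
        _ = _ := by rw [this]; ring
    rw [e]
    calc 2 * K ^ 8 * C ^ 2 * (τ * s ^ 40) ≤ 2 * K ^ 8 * C ^ 2 * (ε ^ 2 / (32 * K ^ 8 * C ^ 2)) :=
          mul_le_mul_of_nonneg_left hA (by positivity)
      _ = (ε / 4) ^ 2 := by
          have hK0 : K ≠ 0 := by positivity
          field_simp
          norm_num
  obtain ⟨w1, hw1⟩ := hall C A hCC hCA K ε hK hε hcond
  obtain ⟨w2, hw2⟩ := hdom (C * A) hs2
  refine ⟨max w1 w2, fun w W hw hW => ?_⟩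
  obtain ⟨N1, hN1⟩ := hw1 w W ((le_max_left _ _).trans hw) hW
  obtain ⟨N2, hN2⟩ := hw2 w W ((le_max_right _ _).trans hw) hW
  refine ⟨max N1 N2, fun N hN r1 r2 σ a1 a2 a3 a4 a5 F G hF hG => ?_⟩
  have f1 : N1 ≤ N := (le_max_left _ _).trans hN
  have f2 : N2 ≤ N := (le_max_right _ _).trans hN
  obtain ⟨p1, B, p2, p3⟩ := hN2 N f2 F hF
  obtain ⟨q1, B', q2, q3⟩ := hN2 N f2 G hG
  exact hN1 N f1 r1 r2 σ a1 a2 a3 a4 a5 F G B B' (RS_nonneg hF) (RS_nonneg hG) p1 q1 p2 q2 p3 q3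

/-- Copy of `ss` (file `H18GB2/BXM.lean`): `box_cut`, `bxmR`, `adm_sumR`. -/
theorem ssR (ε : ℝ) (hε : 0 < ε) : ∃ w0 : ℕ, ∀ w W : ℕ, w0 ≤ w → IsW w W → ∃ N0 : ℕ,
    ∀ N : ℕ, N0 ≤ N → ∀ (r1 r2 σ : ℤ), |r1| < 2 * W → IsCoprime r1 (W : ℤ) → |r2| < 2 * W →
    IsCoprime r2 (W : ℤ) → (σ = 1 ∨ σ = -1) → ∀ (F G F1 G1 : ℤ → ℝ), AdmR w W N F → AdmR w W N G →
    (∀ x, |F1 x| ≤ F x) → (∀ y, |G1 y| ≤ G y) →
    |∑ x ∈ Finset.Ico (0 : ℤ) N, ∑ y ∈ Finset.Ico (0 : ℤ) N,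
      F1 x * G1 y * ker W r1 r2 σ x y| ≤ ε * N ^ 2 := by
  obtain ⟨C, hC, w1, hsum⟩ := adm_sumR
  obtain ⟨w2, hbx⟩ := bxmR (ε ^ 4 / C ^ 4) (by positivity)
  refine ⟨max w1 w2, fun w W hw hW => ?_⟩
  obtain ⟨N1, hN1⟩ := hsum w W ((le_max_left _ _).trans hw) hW
  obtain ⟨N2, hN2⟩ := hbx w W ((le_max_right _ _).trans hw) hW
  refine ⟨max N1 N2, fun N hN r1 r2 σ a1 a2 a3 a4 a5 F G F1 G1 hF hG hF1 hG1 => ?_⟩
  have f1 : N1 ≤ N := (le_max_left _ _).trans hN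
  have f2 : N2 ≤ N := (le_max_right _ _).trans hN
  have s1 := hN1 N f1 F hF
  have s2 := hN1 N f1 G hG
  have hb := hN2 N f2 r1 r2 σ a1 a2 a3 a4 a5 F G hF hG
  have hcut := box_cut (N := N) (k := ker W r1 r2 σ) (F := F) (F1 := F1) (G := G) (G1 := G1)
    (fun x _ => hF1 x) (fun y _ => hG1 y)
  have t1 : 0 ≤ ∑ x ∈ Finset.Ico (0 : ℤ) N, F x := Finset.sum_nonneg fun x _ => RS_nonneg hF x
  have t2 : 0 ≤ ∑ x ∈ Finset.Ico (0 : ℤ) N, G x := Finset.sum_nonneg fun x _ => RS_nonneg hG x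
  have hfin : (∑ x ∈ Finset.Ico (0 : ℤ) N, ∑ y ∈ Finset.Ico (0 : ℤ) N,
      F1 x * G1 y * ker W r1 r2 σ x y) ^ 4 ≤ (ε * N ^ 2) ^ 4 := by
    refine hcut.trans ?_
    have u1 : (∑ x ∈ Finset.Ico (0 : ℤ) N, F x) ^ 2 ≤ (C * N) ^ 2 := pow_le_pow_left₀ t1 s1 2
    have u2 : (∑ x ∈ Finset.Ico (0 : ℤ) N, G x) ^ 2 ≤ (C * N) ^ 2 := pow_le_pow_left₀ t2 s2 2
    calc (∑ x ∈ Finset.Ico (0 : ℤ) N, F x) ^ 2 * (∑ y ∈ Finset.Ico (0 : ℤ) N, G y) ^ 2 *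
          box N (ker W r1 r2 σ) F G
        ≤ (∑ x ∈ Finset.Ico (0 : ℤ) N, F x) ^ 2 * (∑ y ∈ Finset.Ico (0 : ℤ) N, G y) ^ 2 *
          (ε ^ 4 / C ^ 4 * N ^ 4) := mul_le_mul_of_nonneg_left hb (by positivity)
      _ ≤ (C * N) ^ 2 * (C * N) ^ 2 * (ε ^ 4 / C ^ 4 * N ^ 4) := by
          apply mul_le_mul_of_nonneg_right _ (by positivity)
          exact mul_le_mul u1 u2 (by positivity) (by positivity)
      _ = (ε * N ^ 2) ^ 4 := by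
          have : C ≠ 0 := by positivity
          field_simp
  have h4 : |∑ x ∈ Finset.Ico (0 : ℤ) N, ∑ y ∈ Finset.Ico (0 : ℤ) N,
      F1 x * G1 y * ker W r1 r2 σ x y| ^ 4 ≤ (ε * N ^ 2) ^ 4 := by
    rw [Even.pow_abs (by decide)]
    exact hfin
  exact le_of_pow_le_pow_left₀ (by norm_num) (by positivity) h4

end Pool.Agent.Lib.H18C
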