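import Pool.Agent.Lib.H18C.Defs

/-!
# Chunk RD: the majorant of the rough numbers
-/

open Finset Pool.Agent.Lib.Sieve Pool.Agent.Lib.GoldbachGraph Pool.Agent.Lib.H18GB

namespace Pool.Agent.Lib.H18C

theorem RD_rt_anti {s t : ℕ} (hs : 1 ≤ s) (hst : s ≤ t) {M : ℕ} (hM : 1 ≤ M) : rt t M ≤ rt s M := by
  unfold rt
  apply Nat.floor_le_floor
  apply Real.rpow_le_rpow_of_exponent_le (by exact_mod_cast hM)
  exact one_div_le_one_div_of_le (by exact_mod_cast hs) (by exact_mod_cast hst)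

theorem RD_lamr_nonneg (W z : ℕ) (v : ℤ) : 0 ≤ lamr W z v := by
  unfold lamr
  split_ifs
  · exact mul_nonneg (by positivity) (Real.log_natCast_nonneg _)
  · exact le_rfl

theorem RD_lamr_le {W N : ℕ} (z : ℕ) (hW : 0 < W) (hN : 0 < N) {v : ℤ} (hv : |v| ≤ 5 * W * N) :
    lamr W z v ≤ LL W N := by
  have h0 : (1 : ℝ) ≤ 5 * W * N := by
    have h1 : (1 : ℝ) ≤ W := by exact_mod_cast hW
    have h2 : (1 : ℝ) ≤ N := by exact_mod_cast hN
    nlinarith
  have hL : 0 ≤ LL W N := Real.log_nonneg h0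
  unfold lamr
  split_ifs
  · have h1 : (Nat.totient W / W : ℝ) ≤ 1 := by
      rw [div_le_one (by exact_mod_cast hW)]
      exact_mod_cast Nat.totient_le W
    have h2 : Real.log v.natAbs ≤ LL W N := by
      rcases Nat.eq_zero_or_pos v.natAbs with h | h
      · rw [h, Nat.cast_zero, Real.log_zero]
        exact hL
      · apply Real.log_le_log (by exact_mod_cast h)
        have h3 : v.natAbs ≤ 5 * W * N := by
          zify
          exact hv
        exact_mod_cast h3
    have h3 := Real.log_natCast_nonneg v.natAbs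
    have h4 : (0 : ℝ) ≤ Nat.totient W / W := by positivity
    nlinarith
  · exact hL

/-- Copy of `majo` (file `H18GB/Majo.lean`): if `v` is `rt 16 M`-rough, it is not divisible by the primes
`p ∈ sprimes w (rt s M)`, since `p ≤ rt s M ≤ rt 16 M` (`s ≥ 16`); the rest of the proof only uses
`log |v| ≤ 2 log M`. -/
theorem majoR : ∃ C : ℝ, 1 ≤ C ∧ ∀ s : ℕ, 16 ≤ s → ∀ w W : ℕ, IsW w W → ∃ M0 : ℕ, ∀ M : ℕ, M0 ≤ M →
    ∀ v : ℤ, |v| ≤ 5 * W * M → lamr W (rt 16 M) v ≤ C * s * rho (sprimes w (rt s M)) v := by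
  refine ⟨4, by norm_num, fun s hs w W hW => ?_⟩
  obtain ⟨M1, hM1⟩ := log_le_rt (s := s) (by omega)
  obtain ⟨M2, hM2⟩ := Filter.eventually_atTop.mp
    ((rt_tendsto (s := s) (by omega)).eventually (Filter.eventually_ge_atTop (w + 2)))
  refine ⟨M1 + M2 + 5 * W + 1, fun M hM v hv1 => ?_⟩
  have hlog := hM1 M (by omega)
  have hz := hM2 M (by omega)
  have hpr := (pset_sprimes w (rt s M)).prime
  have hs' : (1 : ℝ) ≤ s := by exact_mod_cast (by omega : 1 ≤ s)
  have hle : rt s M ≤ rt 16 M := RD_rt_anti (by norm_num) hs (by omega)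
  by_cases hp : Rg (rt 16 M) v
  · have hrg : Rgh (sprimes w (rt s M)) v := by
      intro p hpS hdv
      rw [mem_sprimes] at hpS
      have h1 := hp p hpS.1 hdv
      omega
    have hV := VV_pos hpr
    rw [lamr, if_pos hp, rho, if_pos hrg, ← div_eq_mul_inv, le_div_iff₀ hV]
    have hz2 : 2 ≤ rt s M := by omega
    have hz2' : (2 : ℝ) ≤ rt s M := by exact_mod_cast hz2
    have hlz : 0 < Real.log (rt s M) := Real.log_pos (by linarith)
    have h3 := prod_one_sub_inv_le (rt s M) hz2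
    rw [← hW.totient_mul_VV (by omega : w ≤ rt s M)] at h3
    have hMpos : (0 : ℝ) < M := by exact_mod_cast (by omega : 0 < M)
    have hM1' : (1 : ℝ) ≤ M := by exact_mod_cast (by omega : 1 ≤ M)
    have h7 : Real.log v.natAbs ≤ 2 * Real.log M := by
      rcases Nat.eq_zero_or_pos v.natAbs with h | h
      · rw [h, Nat.cast_zero, Real.log_zero]
        have := Real.log_nonneg hM1'
        linarith
      · have hvle : (v.natAbs : ℝ) ≤ (M : ℝ) ^ 2 := by
          have h4 : v.natAbs ≤ 5 * W * M := by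
            zify
            exact hv1
          have h5 : 5 * W * M ≤ M * M := Nat.mul_le_mul_right _ (by omega)
          have h6 : v.natAbs ≤ M ^ 2 := by rw [pow_two]; exact h4.trans h5
          exact_mod_cast h6
        have hvpos : (0 : ℝ) < v.natAbs := by exact_mod_cast h
        have := Real.log_le_log hvpos hvle
        rw [Real.log_pow] at this
        exact_mod_cast this
    have h8 : Real.log v.natAbs ≤ 4 * s * Real.log (rt s M) := by nlinarith
    have hφ : (0 : ℝ) ≤ Nat.totient W / W := by positivity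
    calc (Nat.totient W / W : ℝ) * Real.log v.natAbs * VV (sprimes w (rt s M))
        = ((Nat.totient W / W : ℝ) * VV (sprimes w (rt s M))) * Real.log v.natAbs := by ring
      _ ≤ (1 / Real.log (rt s M)) * (4 * s * Real.log (rt s M)) := by
          apply mul_le_mul h3 h8
          · exact Real.log_natCast_nonneg _
          · positivity
      _ = 4 * s := by field_simp
  · rw [lamr, if_neg hp]
    have := rho_nonneg hpr v
    positivity

theorem RD_mono {ι υ : Type} [Fintype ι] [Fintype υ] {w z W N : ℕ} (hw : 2 ≤ w) {K K' : ℝ}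
    (h : K ≤ K') {B : Finset ℤ} {F : ℤ → ℝ} (hD : DomBy ι υ (sprimes w z) w W N K B F) :
    DomBy ι υ (sprimes w z) w W N K' B F := by
  obtain ⟨g, hg, hx⟩ := hD
  exact ⟨g, hg, fun x hx1 hx2 => (hx x hx1 hx2).trans
    (mul_le_mul_of_nonneg_right h (bxm_val_nonneg g hw z W x))⟩

/-- Copy of `adm_dom` (file `H18GB2/Adm.lean`) for `AdmR`, `s ≥ 16`. `Adm`: `adm_dom` itself. Pairs of rough
numbers: third case of `adm_dom` with `majoR` instead of `majo`, `B = ∅` (shape `Empty Unit`). Primes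
`b + W x`: second case with `e = 1` instead of `2` (shape `Unit Empty`, `majo`). -/
theorem admR_dom : ∃ K : ℝ, 1 ≤ K ∧ ∀ s : ℕ, 16 ≤ s → ∃ w0 : ℕ, ∀ w W : ℕ, w0 ≤ w → IsW w W →
    ∃ N0 : ℕ, ∀ N : ℕ, N0 ≤ N → ∀ F : ℤ → ℝ, AdmR w W N F →
    (∀ x ∈ Finset.Ico (0 : ℤ) N, F x ≤ (1 + LL W N) ^ 3) ∧
    ∃ B : Finset ℤ, B.card ≤ 6 * rt s N + 3 ∧
    (DomBy Empty Empty (sprimes w (rt s N)) w W N (K * s ^ 3) B F ∨
      DomBy Unit Empty (sprimes w (rt s N)) w W N (K * s ^ 3) B F ∨
      DomBy Empty Unit (sprimes w (rt s N)) w W N (K * s ^ 3) B F ∨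
      DomBy Unit Unit (sprimes w (rt s N)) w W N (K * s ^ 3) B F) := by
  obtain ⟨C, hC, hmaj⟩ := majo
  obtain ⟨C', hC', hmaj'⟩ := majoR
  obtain ⟨K0, hK0, hdom⟩ := adm_dom
  have hC3 : 1 ≤ C ^ 3 := one_le_pow₀ hC
  have hC3' : 1 ≤ C' ^ 3 := one_le_pow₀ hC'
  refine ⟨K0 + C ^ 3 + C' ^ 3, by linarith, fun s hs => ?_⟩
  obtain ⟨w0, hw0⟩ := hdom s (by omega)
  refine ⟨w0 + 2, fun w W hw hW => ?_⟩
  have hw2 : 2 ≤ w := by omega
  obtain ⟨N1, hN1⟩ := hmaj s (by omega) w W hW
  obtain ⟨N2, hN2⟩ := hmaj' s hs w W hW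
  obtain ⟨N3, hN3⟩ := hw0 w W (by omega) hW
  refine ⟨N1 + N2 + N3 + 8, fun N hN F hF => ?_⟩
  have hN8 : 8 ≤ N := by omega
  have hNp : 0 < N := by omega
  have hW0 : 0 < W := hW.1
  have hm := hN1 N (by omega)
  have hm' := hN2 N (by omega)
  have hs1 : (1 : ℝ) ≤ s := by exact_mod_cast (by omega : 1 ≤ s)
  have hs3 : (1 : ℝ) ≤ (s : ℝ) ^ 3 := one_le_pow₀ hs1
  rcases hF with hF | ⟨hF0, ⟨b, b', hb, hb', hbb, hF⟩ | ⟨b, hb, hF⟩⟩
  · obtain ⟨h1, B, hB, h2⟩ := hN3 N (by omega) F hF
    refine ⟨h1, B, hB, ?_⟩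
    have hK : K0 * (s : ℝ) ^ 3 ≤ (K0 + C ^ 3 + C' ^ 3) * (s : ℝ) ^ 3 :=
      mul_le_mul_of_nonneg_right (by linarith) (by positivity)
    rcases h2 with h | h | h | h
    · exact Or.inl (RD_mono hw2 hK h)
    · exact Or.inr (Or.inl (RD_mono hw2 hK h))
    · exact Or.inr (Or.inr (Or.inl (RD_mono hw2 hK h)))
    · exact Or.inr (Or.inr (Or.inr (RD_mono hw2 hK h)))
  · set z := rt s N with hz
    set S := sprimes w z with hSd
    have hS : PSet w z S := pset_sprimes w z
    have hCs : 1 ≤ C' * s := by nlinarith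
    have hLL := LL_nonneg (W := W) (N := N) hW0 hNp
    have hWZ : (0 : ℤ) < W := by exact_mod_cast hW0
    have hNZ : (8 : ℤ) ≤ N := by exact_mod_cast hN8
    have hb2 : ∀ x ∈ Finset.Ico (0 : ℤ) N, ∀ b : ℤ, |b| ≤ 4 * W * N → |b + W * x| ≤ 5 * W * N := by
      intro x hx b hb
      rw [Finset.mem_Ico] at hx
      rw [abs_le] at hb ⊢
      constructor <;> nlinarith
    have hb3 : ∀ x ∈ Finset.Ico (0 : ℤ) N, ∀ b : ℤ, |b| ≤ 4 * W * N → |b - W * x| ≤ 5 * W * N := by
      intro x hx b hb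
      rw [Finset.mem_Ico] at hx
      rw [abs_le] at hb ⊢
      constructor <;> nlinarith
    have hr0 : ∀ v, 0 ≤ rho S v := rho_nonneg hS.prime
    have hsgp := SGp_le_SW (z := z) hW hw2 hbb
    have hSW1 : 1 ≤ SW w (b + b') := rcn_one_le_SW hw2 _
    refine ⟨fun x hx => ?_, ∅, by simp, Or.inr (Or.inr (Or.inl ?_))⟩
    · refine (hF x).trans ?_
      have h1 := RD_lamr_le (rt 16 N) hW0 hNp (hb2 x hx b hb)
      have h2 := RD_lamr_le (rt 16 N) hW0 hNp (hb3 x hx b' hb')
      have h3 := RD_lamr_nonneg W (rt 16 N) (b + W * x)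
      have h4 := RD_lamr_nonneg W (rt 16 N) (b' - W * x)
      have h5 : lamr W (rt 16 N) (b + W * x) * lamr W (rt 16 N) (b' - W * x) ≤ LL W N * LL W N := by
        gcongr
      refine (div_le_self (by positivity) hSW1).trans (h5.trans ?_)
      nlinarith [mul_nonneg hLL hLL, mul_nonneg hLL (mul_nonneg hLL hLL)]
    refine ⟨⟨fun i => match i with
        | .inl i => i.elim
        | .inr (_, false) => 1
        | .inr (_, true) => -1, fun i => match i with
        | .inl i => i.elim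
        | .inr (_, false) => b
        | .inr (_, true) => b'⟩, ⟨fun i => ?_, fun i j hij => ?_⟩, fun x hx _ => ?_⟩
    · rcases i with i | ⟨i, a⟩
      · exact i.elim
      · cases a <;> norm_num
    · rcases i with i | ⟨i, a⟩
      · exact i.elim
      · rcases j with j | ⟨j, a'⟩
        · exact j.elim
        · exact absurd ⟨(), a, a', rfl, rfl⟩ hij.2
    · have m1 := hm' (b + W * x) (hb2 x hx b hb)
      have m2 := hm' (b' - W * x) (hb3 x hx b' hb')
      simp only [GW.val, Finset.univ_unique, Finset.univ_eq_empty, Finset.prod_empty, one_mul,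
        Finset.prod_singleton]
      have e1 : (W : ℤ) * x + b = b + W * x := by ring
      have e2 : (-1 : ℤ) * W * x + b' = b' - W * x := by ring
      have e3 : (W : ℤ) * b' - -1 * W * b = W * (b + b') := by ring
      rw [e1, e2, e3]
      refine (hF x).trans ?_
      have h3 := RD_lamr_nonneg W (rt 16 N) (b + W * x)
      have h4 := RD_lamr_nonneg W (rt 16 N) (b' - W * x)
      have r1 := hr0 (b + W * x)
      have r2 := hr0 (b' - W * x)
      have hC0 : 0 ≤ C' := by linarith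
      have h5 : lamr W (rt 16 N) (b + W * x) * lamr W (rt 16 N) (b' - W * x) ≤
          (C' * s * rho S (b + W * x)) * (C' * s * rho S (b' - W * x)) := by gcongr
      have h6 : lamr W (rt 16 N) (b + W * x) * lamr W (rt 16 N) (b' - W * x) / SW w (b + b') ≤
          (C' * s * rho S (b + W * x)) * (C' * s * rho S (b' - W * x)) /
            SGp S (W * (b + b')) := by
        apply div_le_div₀ (by positivity) h5 hsgp.1 hsgp.2
      refine h6.trans ?_
      have h7 : (C' * s * rho S (b + W * x)) * (C' * s * rho S (b' - W * x)) /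
            SGp S (W * (b + b')) = (C' * s) ^ 2 * (rho S (b + W * x) * rho S (b' - W * x) /
            SGp S (W * (b + b'))) := by ring
      rw [h7]
      apply mul_le_mul_of_nonneg_right _ (div_nonneg (mul_nonneg (hr0 _) (hr0 _)) hsgp.1.le)
      calc (C' * s) ^ 2 ≤ (C' * s) ^ 3 := pow_le_pow_right₀ hCs (by norm_num)
        _ = C' ^ 3 * (s : ℝ) ^ 3 := by rw [mul_pow]
        _ ≤ (K0 + C ^ 3 + C' ^ 3) * (s : ℝ) ^ 3 :=
          mul_le_mul_of_nonneg_right (by linarith) (by positivity)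
  · set z := rt s N with hz
    set S := sprimes w z with hSd
    have hS : PSet w z S := pset_sprimes w z
    have hCs : 1 ≤ C * s := by nlinarith
    have hLL := LL_nonneg (W := W) (N := N) hW0 hNp
    have hWZ : (0 : ℤ) < W := by exact_mod_cast hW0
    have hNZ : (8 : ℤ) ≤ N := by exact_mod_cast hN8
    have hb1 : ∀ x ∈ Finset.Ico (0 : ℤ) N, |b + W * x| ≤ 5 * W * N := by
      intro x hx
      rw [Finset.mem_Ico] at hx
      rw [abs_le] at hb ⊢
      constructor <;> nlinarith
    have hr0 : ∀ v, 0 ≤ rho S v := rho_nonneg hS.prime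
    refine ⟨fun x hx => ?_, bad N b W z, (card_bad (by positivity) z).trans (by omega),
      Or.inr (Or.inl ?_)⟩
    · exact (hF x).trans (adm_prod1 _ _ hLL (lamv_le hW0 hNp (hb1 x hx)))
    refine ⟨⟨fun _ => 1, fun _ => b⟩, ⟨fun _ => by norm_num, fun i j hij => ?_⟩, fun x hx hxB => ?_⟩
    · rcases i with i | i
      · rcases j with j | j
        · exact absurd (by rw [Subsingleton.elim i j]) hij.1
        · exact j.1.elim
      · exact i.1.elim
    · have h1 : (z : ℤ) < |b + W * x| := by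
        rw [bad, Finset.mem_filter, not_and] at hxB
        exact not_le.mp (hxB hx)
      have h2 := hm (b + W * x) (hb1 x hx) h1
      have h3 : (⟨fun _ => 1, fun _ => b⟩ : GW Unit Empty).val S W x = rho S (b + W * x) := by
        simp [GW.val, add_comm]
      rw [h3]
      refine (hF x).trans (h2.trans (mul_le_mul_of_nonneg_right ?_ (hr0 _)))
      calc C * s ≤ (C * s) ^ 3 := by
            calc C * s = (C * s) ^ 1 := (pow_one _).symm
              _ ≤ (C * s) ^ 3 := pow_le_pow_right₀ hCs (by norm_num)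
        _ = C ^ 3 * (s : ℝ) ^ 3 := by rw [mul_pow]
        _ ≤ (K0 + C ^ 3 + C' ^ 3) * (s : ℝ) ^ 3 :=
          mul_le_mul_of_nonneg_right (by linarith) (by positivity)

end Pool.Agent.Lib.H18C
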