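import Pool.Agent.Lib.H18C.R2
import Pool.Agent.Lib.H18C.R2Z
import Pool.Agent.Lib.H18C.R3
import Pool.Agent.Lib.H18C.RA
import Pool.Agent.Lib.H18GB2.Alpha

/-!
# Chunk RG: assembly (large sets are connected in at most `5` steps)
-/

open Finset Pool.Agent.Lib.Sieve Pool.Agent.Lib.GoldbachGraph Pool.Agent.Lib.H18GB

namespace Pool.Agent.Lib.H18C

/-- `v` is at distance at most `k` from `A` -/
def Near (n : ℕ) (A : Finset ℕ) (v k : ℕ) : Prop := ∃ y ∈ A, (HG n).edist y v ≤ (k : ℕ∞)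

theorem near_step {n : ℕ} {A : Finset ℕ} {b c k : ℕ} (h : Near n A b k) (hbc : (HG n).Adj b c) :
    Near n A c (k + 1) := by
  obtain ⟨y, hy, h⟩ := h
  exact ⟨y, hy, gr6_step (HG n) h hbc⟩

/-- `A` and `A'` are at distance at most `k` -/
def Joined (n : ℕ) (A A' : Finset ℕ) (k : ℕ) : Prop :=
  ∃ y ∈ A, ∃ y' ∈ A', (HG n).edist y y' ≤ (k : ℕ∞)

theorem Joined.symm {n : ℕ} {A A' : Finset ℕ} {k : ℕ} (h : Joined n A A' k) : Joined n A' A k := by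
  obtain ⟨y, hy, y', hy', h⟩ := h
  exact ⟨y', hy', y, hy, by rwa [SimpleGraph.edist_comm]⟩

theorem Joined.mono {n : ℕ} {A A' : Finset ℕ} {k l : ℕ} (h : Joined n A A' k) (hkl : k ≤ l) :
    Joined n A A' l := by
  obtain ⟨y, hy, y', hy', h⟩ := h
  exact ⟨y, hy, y', hy', h.trans (by exact_mod_cast hkl)⟩

theorem near_join {n : ℕ} {A A' : Finset ℕ} {b k l : ℕ} (h : Near n A b k) (h' : Near n A' b l) :
    Joined n A A' (k + l) := by
  obtain ⟨y, hy, h⟩ := h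
  obtain ⟨y', hy', h'⟩ := h'
  exact ⟨y, hy, y', hy', gr6_join (HG n) h h'⟩

open Classical in
/-- the elements `z ∈ [1, N)` with `z0 + W z` at distance at most `k` from `A` -/
noncomputable def rS (n W N : ℕ) (A : Finset ℕ) (z0 k : ℕ) : Finset ℕ :=
  (Finset.Ico 1 N).filter fun z => Near n A (z0 + W * z) k

theorem rS_sub (n W N : ℕ) (A : Finset ℕ) (z0 k : ℕ) : rS n W N A z0 k ⊆ Finset.Ico 1 N := by
  classical
  unfold rS
  exact Finset.filter_subset _ _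

theorem mem_rS {n W N : ℕ} {A : Finset ℕ} {z0 k z : ℕ} (h : z ∈ rS n W N A z0 k) :
    z ∈ Finset.Ico 1 N ∧ Near n A (z0 + W * z) k := by
  classical
  unfold rS at h
  exact Finset.mem_filter.mp h

/-- the input of the assembly -/
structure RCtx (n w W N : ℕ) (ε1 : ℝ) : Prop where
  hw : 7 ≤ w
  hW : IsW w W
  hWN : W * N ≤ n
  hn : n ≤ 2 * W * N
  hN : 40 ≤ N
  hε1 : ε1 ≤ 1 / 10
  p3 : ∀ (A : Finset ℕ) (y0 z0 : ℕ), z0 < W → Comp W z0 y0 → StartW w W N A y0 ε1 →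
    ∀ B : Finset ℕ, B ⊆ Finset.Ico 1 N → ε1 * N ≤ B.card →
    ∃ y ∈ Finset.Ico 1 N, y0 + W * y ∈ A ∧ ∃ z ∈ B, hadj (y0 + W * y) (z0 + W * z)
  p4 : ∀ x0 y0 : ℕ, x0 < W → y0 < W → Comp W x0 y0 →
    ∀ A B : Finset ℕ, A ⊆ Finset.Ico 1 N → B ⊆ Finset.Ico 1 N → 1 / 10 * (N : ℝ) ≤ A.card →
    1 / 10 * (N : ℝ) ≤ B.card → ∃ x ∈ A, ∃ y ∈ B, hadj (x0 + W * x) (y0 + W * y)
  tot : ∀ v0 : ℕ, v0 + 3 < W → IsCoprime (2 * (v0 : ℤ) + 3) W →
    (N : ℝ) / 2 ≤ ∑ v ∈ Finset.Ico 1 N, sg W v0 v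
  t2 : ∀ z0 v0 d : ℕ, z0 < W → v0 + 3 < W → (d = 0 ∨ d = 3) →
    IsCoprime (2 * (v0 : ℤ) + 3) W → Comp W z0 (v0 + d) → ∀ B : Finset ℕ, B ⊆ Finset.Ico 1 N →
    1 / 4 * (N : ℝ) ≤ (B.card : ℝ) → ∀ S : Finset ℕ, (∀ v ∈ S, v ∈ Finset.Ico 1 N ∧
      ¬ ∃ z ∈ B, hadj (v0 + d + W * v) (z0 + W * z)) → ∑ v ∈ S, sg W v0 v ≤ 1 / 8 * N
  ga : ∀ (A : Finset ℕ) (y0 v0 d : ℕ), v0 + 3 < W → (d = 0 ∨ d = 3) →
    IsCoprime (2 * (v0 : ℤ) + 3) W → Comp W (v0 + d) y0 → StartW w W N A y0 ε1 →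
    ∀ S : Finset ℕ, (∀ v ∈ S, v ∈ Finset.Ico 1 N ∧
      ¬ ∃ y ∈ Finset.Ico 1 N, y0 + W * y ∈ A ∧ hadj (y0 + W * y) (v0 + d + W * v)) →
      ∑ v ∈ S, sg W v0 v ≤ 1 / 8 * N

/-- a good start -/
def rGood (w W N : ℕ) (ε1 : ℝ) (X : ℕ) (A : Finset ℕ) (y0 : ℕ) : Prop :=
  Comp W X y0 ∧ StartW w W N A y0 ε1

theorem RCtx.mem {n w W N : ℕ} {ε1 : ℝ} (h : RCtx n w W N ε1) {y0 y : ℕ} (hy0 : y0 < W)
    (hy : y ∈ Finset.Ico 1 N) : y0 + W * y ∈ Finset.Icc 1 n := by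
  rw [Finset.mem_Ico] at hy
  rw [Finset.mem_Icc]
  have hW0 := h.hW.1
  have h1 : W * y + W ≤ W * N := by
    calc W * y + W = W * (y + 1) := by ring
      _ ≤ W * N := Nat.mul_le_mul_left _ hy.2
  have h2 : W * 1 ≤ W * y := Nat.mul_le_mul_left _ hy.1
  have := h.hWN
  omega

theorem r_compl {n W N z0 k : ℕ} {A : Finset ℕ} {c : ℝ}
    (h : ∀ B : Finset ℕ, B ⊆ Finset.Ico 1 N → c * N ≤ B.card →
      ∃ z ∈ B, Near n A (z0 + W * z) k) :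
    (1 - c) * N - 1 ≤ (rS n W N A z0 k).card := by
  classical
  by_contra hcon
  push Not at hcon
  have h1 : (rS n W N A z0 k).card + ((Finset.Ico 1 N).filter
      fun z => ¬ Near n A (z0 + W * z) k).card = (Finset.Ico 1 N).card := by
    unfold rS
    exact Finset.card_filter_add_card_filter_not _
  rw [Nat.card_Ico] at h1
  have h2 : (N : ℝ) - 1 ≤ ((N - 1 : ℕ) : ℝ) := by
    rcases Nat.eq_zero_or_pos N with h0 | h0
    · rw [h0]; simp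
    · rw [Nat.cast_sub h0]; simp
  have h3 : ((rS n W N A z0 k).card : ℝ) + (((Finset.Ico 1 N).filter
      fun z => ¬ Near n A (z0 + W * z) k).card : ℝ) = ((N - 1 : ℕ) : ℝ) := by
    exact_mod_cast h1
  obtain ⟨z, hz, hz2⟩ := h _ (Finset.filter_subset _ _) (by
    have : c * N ≤ (((Finset.Ico 1 N).filter
      fun z => ¬ Near n A (z0 + W * z) k).card : ℝ) := by linarith
    exact this)
  exact (Finset.mem_filter.mp hz).2 hz2

theorem RCtx.two {n w W N : ℕ} {ε1 : ℝ} (h : RCtx n w W N ε1) {X y0 z0 : ℕ} {A : Finset ℕ}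
    (hg : rGood w W N ε1 X A y0) (hz0 : z0 < W) (hc : Comp W z0 y0) :
    9 / 10 * (N : ℝ) - 1 ≤ (rS n W N A z0 1).card := by
  have h1 : (1 - ε1) * N - 1 ≤ ((rS n W N A z0 1).card : ℝ) := by
    refine r_compl fun B hB hB2 => ?_
    obtain ⟨y, hy, ha, z, hz, hb⟩ := h.p3 A y0 z0 hz0 hc hg.2 B hB hB2
    refine ⟨z, hz, ?_⟩
    have s0 : Near n A (y0 + W * y) 0 := ⟨_, ha, by simp⟩
    exact near_step s0 (c := z0 + W * z) ⟨hb, h.mem hg.2.lt hy, h.mem hz0 (hB hz)⟩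
  have h2 : (9 / 10 : ℝ) * N ≤ (1 - ε1) * N := by
    have := h.hε1
    have hN : (0 : ℝ) ≤ N := Nat.cast_nonneg _
    nlinarith
  linarith

theorem RCtx.succ {n w W N : ℕ} {ε1 : ℝ} (h : RCtx n w W N ε1) {z1 z0 k : ℕ} {A : Finset ℕ}
    (hz1 : z1 < W) (hz0 : z0 < W) (hc : Comp W z1 z0)
    (hS : 1 / 10 * (N : ℝ) ≤ (rS n W N A z1 k).card) :
    9 / 10 * (N : ℝ) - 1 ≤ (rS n W N A z0 (k + 1)).card := by
  have h1 : (1 - 1 / 10) * (N : ℝ) - 1 ≤ ((rS n W N A z0 (k + 1)).card : ℝ) := by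
    refine r_compl fun B hB hB2 => ?_
    obtain ⟨x, hx, y, hy, hxy⟩ := h.p4 z1 z0 hz1 hz0 hc _ B (rS_sub _ _ _ _ _ _) hB hS hB2
    refine ⟨y, hy, ?_⟩
    have hx := mem_rS hx
    exact near_step hx.2 ⟨hxy, h.mem hz1 hx.1, h.mem hz0 (hB hy)⟩
  linarith

theorem RCtx.meet {n w W N : ℕ} {ε1 : ℝ} (h : RCtx n w W N ε1) {z0 k l : ℕ} {A A' : Finset ℕ}
    (hS : 9 / 10 * (N : ℝ) - 1 ≤ (rS n W N A z0 k).card)
    (hS' : 9 / 10 * (N : ℝ) - 1 ≤ (rS n W N A' z0 l).card) :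
    Joined n A A' (k + l) := by
  classical
  have hN : (40 : ℝ) ≤ N := by exact_mod_cast h.hN
  have h1 : (rS n W N A z0 k ∩ rS n W N A' z0 l).Nonempty := by
    rw [← Finset.card_pos]
    have h2 := Finset.card_union_add_card_inter (rS n W N A z0 k) (rS n W N A' z0 l)
    have h3 : (rS n W N A z0 k ∪ rS n W N A' z0 l).card ≤ N := by
      refine (Finset.card_le_card (Finset.union_subset (rS_sub _ _ _ _ _ _)
        (rS_sub _ _ _ _ _ _))).trans ?_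
      rw [Nat.card_Ico]
      omega
    have h4 : (((rS n W N A z0 k ∪ rS n W N A' z0 l).card : ℕ) : ℝ) +
        ((rS n W N A z0 k ∩ rS n W N A' z0 l).card : ℕ) =
        ((rS n W N A z0 k).card : ℕ) + ((rS n W N A' z0 l).card : ℕ) := by exact_mod_cast h2
    have h5 : (((rS n W N A z0 k ∪ rS n W N A' z0 l).card : ℕ) : ℝ) ≤ N := by
      exact_mod_cast h3
    have h6 : (0 : ℝ) < ((rS n W N A z0 k ∩ rS n W N A' z0 l).card : ℕ) := by linarith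
    exact_mod_cast h6
  obtain ⟨z, hz⟩ := h1
  rw [Finset.mem_inter] at hz
  exact near_join (mem_rS hz.1).2 (mem_rS hz.2).2

/-- same type -/
theorem RCtx.four {n w W N : ℕ} {ε1 : ℝ} (h : RCtx n w W N ε1) {X X' y0 y0' : ℕ}
    {A A' : Finset ℕ} (hg : rGood w W N ε1 X A y0)
    (hg' : rGood w W N ε1 X' A' y0') (h2 : (X : ℤ) % 2 = (X' : ℤ) % 2)
    (h3 : (3 : ℤ) ∣ X ↔ (3 : ℤ) ∣ X') : Joined n A A' 2 := by
  have hw3 : 3 ≤ w := by have := h.hw; omega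
  have c1 := comp_parity hw3 h.hW hg.1
  have c2 := comp_parity hw3 h.hW hg'.1
  obtain ⟨z0, hz0, e1, e2⟩ := comp_common hw3 h.hW (y0 : ℤ) (y0' : ℤ) (by omega) (by tauto)
  exact h.meet (h.two hg hz0 (comp_comm e1)) (h.two hg' hz0 (comp_comm e2))

/-- opposite types -/
theorem RCtx.five {n w W N : ℕ} {ε1 : ℝ} (h : RCtx n w W N ε1) {X X' y0 y0' : ℕ}
    {A A' : Finset ℕ} (hg : rGood w W N ε1 X A y0)
    (hg' : rGood w W N ε1 X' A' y0') (h2 : (X : ℤ) % 2 ≠ (X' : ℤ) % 2)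
    (h3 : (3 : ℤ) ∣ X ↔ ¬ (3 : ℤ) ∣ X') : Joined n A A' 3 := by
  have hw3 : 3 ≤ w := by have := h.hw; omega
  have hN : (40 : ℝ) ≤ N := by exact_mod_cast h.hN
  have c1 := comp_parity hw3 h.hW hg.1
  have c2 := comp_parity hw3 h.hW hg'.1
  obtain ⟨z1, hz1, e1, -⟩ := comp_common hw3 h.hW (y0' : ℤ) (y0' : ℤ) rfl Iff.rfl
  have c3 := comp_parity hw3 h.hW e1
  obtain ⟨z0, hz0, e2, e3⟩ := comp_common hw3 h.hW (y0 : ℤ) (z1 : ℤ) (by omega) (by omega)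
  have s1 := h.two hg hz0 (comp_comm e2)
  have s2 := h.two hg' hz1 (comp_comm e1)
  have s3 := h.succ (A := A') (k := 1) hz1 hz0 e3 (by linarith)
  exact h.meet s1 s3

/-- two steps to a class compatible with `v` -/
theorem RCtx.reach {n w W N : ℕ} {ε1 : ℝ} (h : RCtx n w W N ε1) {X y0 : ℕ}
    {A : Finset ℕ} (hg : rGood w W N ε1 X A y0) (v : ℤ) (hv3 : ¬ (3 : ℤ) ∣ v)
    (hcl : v % 2 = (X : ℤ) % 2 ↔ ¬ (3 : ℤ) ∣ X) :
    ∃ z0 : ℕ, z0 < W ∧ Comp W v z0 ∧ (N : ℝ) / 2 ≤ (rS n W N A z0 2).card := by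
  have hw3 : 3 ≤ w := by have := h.hw; omega
  have hN : (40 : ℝ) ≤ N := by exact_mod_cast h.hN
  have c1 := comp_parity hw3 h.hW hg.1
  by_cases h3 : (3 : ℤ) ∣ X
  · have c4 : v % 2 ≠ (X : ℤ) % 2 := fun h5 => (hcl.mp h5) h3
    obtain ⟨z0, hz0, e1, e2⟩ := comp_common hw3 h.hW (y0 : ℤ) v (by omega) (by tauto)
    refine ⟨z0, hz0, e2, ?_⟩
    have s1 := h.two hg hz0 (comp_comm e1)
    have s2 : (rS n W N A z0 1).card ≤ (rS n W N A z0 2).card := by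
      apply Finset.card_le_card
      classical
      intro z hz
      unfold rS at hz ⊢
      rw [Finset.mem_filter] at hz ⊢
      obtain ⟨hz, y, hy, h4⟩ := hz
      exact ⟨hz, y, hy, h4.trans (by norm_num)⟩
    have s3 : ((rS n W N A z0 1).card : ℝ) ≤ (rS n W N A z0 2).card := by exact_mod_cast s2
    linarith
  · have c4 : v % 2 = (X : ℤ) % 2 := hcl.mpr h3
    obtain ⟨z1, hz1, e1, -⟩ := comp_common hw3 h.hW (y0 : ℤ) (y0 : ℤ) rfl Iff.rfl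
    have c3 := comp_parity hw3 h.hW e1
    obtain ⟨z0, hz0, e2, e3⟩ := comp_common hw3 h.hW (z1 : ℤ) v (by omega) (by tauto)
    refine ⟨z0, hz0, e3, ?_⟩
    have s1 := h.two hg hz1 (comp_comm e1)
    have s2 := h.succ (A := A) (k := 1) hz1 hz0 e2 (by linarith)
    linarith

open Classical in
/-- mass of the link ends `v0 + d + W v` at distance more than `k` from `A` -/
noncomputable def rM (n W N : ℕ) (A : Finset ℕ) (v0 d k : ℕ) : ℝ :=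
  ∑ v ∈ (Finset.Ico 1 N).filter (fun v => ¬ Near n A (v0 + d + W * v) k), sg W v0 v

theorem RCtx.memV {n w W N : ℕ} {ε1 : ℝ} (h : RCtx n w W N ε1) {v0 d v : ℕ}
    (hv0 : v0 + 3 < W) (hd : d = 0 ∨ d = 3) (hv : v ∈ Finset.Ico 1 N) :
    v0 + d + W * v ∈ Finset.Icc 1 n :=
  h.mem (by rcases hd with rfl | rfl <;> omega) hv

theorem RCtx.one {n w W N : ℕ} {ε1 : ℝ} (h : RCtx n w W N ε1) {X y0 v0 d : ℕ} {A : Finset ℕ}
    (hg : rGood w W N ε1 X A y0) (hv0 : v0 + 3 < W)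
    (hd : d = 0 ∨ d = 3) (hvc : IsCoprime (2 * (v0 : ℤ) + 3) W) (hc : Comp W (v0 + d) y0) :
    rM n W N A v0 d 1 ≤ 1 / 8 * N := by
  classical
  unfold rM
  refine h.ga A y0 v0 d hv0 hd hvc hc hg.2 _ ?_
  intro v hv
  rw [Finset.mem_filter] at hv
  refine ⟨hv.1, ?_⟩
  rintro ⟨y, hy, ha, hb⟩
  apply hv.2
  have s0 : Near n A (y0 + W * y) 0 := ⟨_, ha, by simp⟩
  exact near_step s0 (c := v0 + d + W * v) ⟨hb, h.mem hg.2.lt hy, h.memV hv0 hd hv.1⟩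

theorem RCtx.ofSet {n w W N : ℕ} {ε1 : ℝ} (h : RCtx n w W N ε1) {z0 v0 d k : ℕ} {A : Finset ℕ}
    (hz0 : z0 < W) (hv0 : v0 + 3 < W)
    (hd : d = 0 ∨ d = 3) (hvc : IsCoprime (2 * (v0 : ℤ) + 3) W) (hc : Comp W z0 (v0 + d))
    (hS : 1 / 4 * (N : ℝ) ≤ (rS n W N A z0 k).card) :
    rM n W N A v0 d (k + 1) ≤ 1 / 8 * N := by
  classical
  unfold rM
  refine h.t2 z0 v0 d hz0 hv0 hd hvc hc (rS n W N A z0 k) (rS_sub _ _ _ _ _ _) hS _ ?_
  intro v hv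
  rw [Finset.mem_filter] at hv
  refine ⟨hv.1, ?_⟩
  rintro ⟨z, hz, ha⟩
  apply hv.2
  have hz := mem_rS hz
  exact near_step hz.2 (c := v0 + d + W * v)
    ⟨(hadj_comm _ _).mp ha, h.mem hz0 hz.1, h.memV hv0 hd hv.1⟩

theorem RCtx.meetV {n w W N : ℕ} {ε1 : ℝ} (h : RCtx n w W N ε1) {v0 k l : ℕ} {A A' : Finset ℕ}
    (hv0 : v0 + 3 < W) (hvc : IsCoprime (2 * (v0 : ℤ) + 3) W)
    (hS : rM n W N A v0 0 k ≤ 1 / 8 * N) (hS' : rM n W N A' v0 3 l ≤ 1 / 8 * N) :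
    Joined n A A' (k + 1 + l) := by
  classical
  have hN : (40 : ℝ) ≤ N := by exact_mod_cast h.hN
  obtain ⟨v, hv, hsg, h1, h2⟩ : ∃ v ∈ Finset.Ico 1 N, sg W v0 v ≠ 0 ∧
      Near n A (v0 + 0 + W * v) k ∧ Near n A' (v0 + 3 + W * v) l := by
    by_contra hcon
    push Not at hcon
    have h3 : ∑ v ∈ Finset.Ico 1 N, sg W v0 v ≤ rM n W N A v0 0 k + rM n W N A' v0 3 l := by
      unfold rM
      rw [Finset.sum_filter, Finset.sum_filter, ← Finset.sum_add_distrib]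
      refine Finset.sum_le_sum fun v hv => ?_
      have h0 := sg_nonneg W v0 v
      by_cases e0 : sg W v0 v = 0
      · rw [e0]; simp
      by_cases e1 : Near n A (v0 + 0 + W * v) k
      · have e2 := hcon v hv e0 e1
        rw [if_neg (not_not.mpr e1), if_pos e2, zero_add]
      · rw [if_pos e1]
        have : 0 ≤ (if ¬ Near n A' (v0 + 3 + W * v) l then sg W v0 v else 0) := by
          split_ifs <;> first | exact h0 | exact le_rfl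
        linarith
    have h4 := h.tot v0 hv0 hvc
    linarith
  have hp := sg_ne hsg
  have m1 := h.memV hv0 (Or.inl rfl) hv
  have m2 := h.memV hv0 (Or.inr rfl) hv
  have e5 : v0 + 3 + W * v = v0 + W * v + 3 := by ring
  rw [add_zero] at h1 m1
  have t2 := near_step h1 (c := v0 + 3 + W * v)
    ⟨by rw [e5]; exact ty3_link hp, m1, m2⟩
  exact near_join t2 h2

/-- two steps from a multiple of `3` to almost all link ends -/
theorem RCtx.three {n w W N : ℕ} {ε1 : ℝ} (h : RCtx n w W N ε1) {X y0 v0 d : ℕ} {A : Finset ℕ}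
    (hg : rGood w W N ε1 X A y0) (hv0 : v0 + 3 < W)
    (hd : d = 0 ∨ d = 3) (hvc : IsCoprime (2 * (v0 : ℤ) + 3) W) (h3 : (3 : ℤ) ∣ X)
    (hv3 : ¬ (3 : ℤ) ∣ ((v0 : ℤ) + d)) (hp : ((v0 : ℤ) + d) % 2 ≠ (X : ℤ) % 2) :
    rM n W N A v0 d 2 ≤ 1 / 8 * N := by
  have hw3 : 3 ≤ w := by have := h.hw; omega
  have hN : (40 : ℝ) ≤ N := by exact_mod_cast h.hN
  have c1 := comp_parity hw3 h.hW hg.1
  obtain ⟨z0, hz0, e1, e2⟩ := comp_common hw3 h.hW (y0 : ℤ) ((v0 : ℤ) + d) (by omega)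
    (by tauto)
  have s1 := h.two hg hz0 (comp_comm e1)
  exact h.ofSet hz0 hv0 hd hvc (comp_comm e2) (by linarith)

/-- three steps from a vertex prime to `3` to almost all link ends -/
theorem RCtx.fourV {n w W N : ℕ} {ε1 : ℝ} (h : RCtx n w W N ε1) {X y0 v0 d : ℕ} {A : Finset ℕ}
    (hg : rGood w W N ε1 X A y0) (hv0 : v0 + 3 < W)
    (hd : d = 0 ∨ d = 3) (hvc : IsCoprime (2 * (v0 : ℤ) + 3) W) (h3 : ¬ (3 : ℤ) ∣ X)
    (hv3 : ¬ (3 : ℤ) ∣ ((v0 : ℤ) + d)) (hp : ((v0 : ℤ) + d) % 2 = (X : ℤ) % 2) :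
    rM n W N A v0 d 3 ≤ 1 / 8 * N := by
  have hN : (40 : ℝ) ≤ N := by exact_mod_cast h.hN
  obtain ⟨z0, hz0, e1, s1⟩ := h.reach hg ((v0 : ℤ) + d) hv3 (by tauto)
  exact h.ofSet hz0 hv0 hd hvc (comp_comm e1) (by linarith)

/-- both multiples of `3` -/
theorem RCtx.case1 {n w W N : ℕ} {ε1 : ℝ} (h : RCtx n w W N ε1) {X X' y0 y0' : ℕ}
    {A A' : Finset ℕ} (hg : rGood w W N ε1 X A y0)
    (hg' : rGood w W N ε1 X' A' y0') (h3 : (3 : ℤ) ∣ X) (h3' : (3 : ℤ) ∣ X')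
    (h2 : (X : ℤ) % 2 ≠ (X' : ℤ) % 2) : Joined n A A' 5 := by
  obtain ⟨v, hv, hv2, hv3, hvc⟩ := exists_link (by have := h.hw; omega) h.hW (1 - (X : ℤ) % 2)
    (by omega)
  have s1 := h.three (v0 := v) (d := 0) hg hv (Or.inl rfl) hvc h3 (by simpa using hv3)
    (by push_cast; omega)
  have s2 := h.three (v0 := v) (d := 3) hg' hv (Or.inr rfl) hvc h3' (by push_cast; omega)
    (by push_cast; omega)
  exact h.meetV hv hvc s1 s2

/-- the second vertex is prime to `3` -/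
theorem RCtx.case2 {n w W N : ℕ} {ε1 : ℝ} (h : RCtx n w W N ε1) {X X' y0 y0' : ℕ}
    {A A' : Finset ℕ} (hg : rGood w W N ε1 X A y0)
    (hg' : rGood w W N ε1 X' A' y0') (h3' : ¬ (3 : ℤ) ∣ X')
    (h23 : (X : ℤ) % 2 = (X' : ℤ) % 2 ↔ (3 : ℤ) ∣ X) : Joined n A A' 5 := by
  have hw3 : 3 ≤ w := by have := h.hw; omega
  have c2 := comp_parity hw3 h.hW hg'.1
  obtain ⟨v, hv, hv3, hvc, hcomp⟩ := exists_link_comp h.hw h.hW (y0' : ℤ) 3 (Or.inr rfl)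
    (by tauto)
  have c3 := comp_parity hw3 h.hW hcomp
  have s2 := h.one (v0 := v) (d := 3) hg' hv (Or.inr rfl) hvc (comp_comm hcomp)
  by_cases h3 : (3 : ℤ) ∣ X
  · have s1 := h.three (v0 := v) (d := 0) hg hv (Or.inl rfl) hvc h3 (by simpa using hv3)
      (by
        have e1 := h23.mpr h3
        have e2 := c2.1
        have e3 := c3.1
        push_cast
        clear c2 c3 h23 h3 h3' hv3
        rcases Int.emod_two_eq_zero_or_one (X' : ℤ) with e | e <;> omega)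
    exact (h.meetV hv hvc s1 s2).mono (by norm_num)
  · have s1 := h.fourV (v0 := v) (d := 0) hg hv (Or.inl rfl) hvc h3 (by simpa using hv3)
      (by
        have e1 : ¬ (X : ℤ) % 2 = (X' : ℤ) % 2 := fun e => h3 (h23.mp e)
        have e2 := c2.1
        have e3 := c3.1
        push_cast
        clear c2 c3 h23 h3 h3' hv3
        rcases Int.emod_two_eq_zero_or_one (X' : ℤ) with e | e <;> omega)
    exact h.meetV hv hvc s1 s2

/-- the context exists -/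
theorem r_ctx (ε : ℝ) (hε : 0 < ε) : ∃ ε1 : ℝ, 0 < ε1 ∧ ∃ w : ℕ,
    ∃ n0 : ℕ, ∀ n : ℕ, n0 ≤ n →
    RCtx n w (primorial w) (n / primorial w) ε1 ∧
    ∀ (X : ℕ) (A : Finset ℕ), X ≤ n → Large ε n X A →
      ∃ y0 : ℕ, rGood w (primorial w) (n / primorial w) ε1 X A y0 := by
  classical
  obtain ⟨ε1, hε1, hε1a, hε1b⟩ : ∃ ε1 : ℝ, 0 < ε1 ∧ ε1 ≤ ε / 40 ∧ ε1 ≤ 1 / 10 :=
    ⟨min (ε / 40) (1 / 10), lt_min (by positivity) (by norm_num), min_le_left _ _, min_le_right _ _⟩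
  obtain ⟨w1, h3⟩ := gr3R ε1 hε1
  obtain ⟨w2, h4⟩ := gr4 (1 / 10) (by norm_num)
  obtain ⟨w4, h6⟩ := ga1R ε1 hε1
  obtain ⟨w5, h7⟩ := ty2' (1 / 4) (1 / 8) (by norm_num) (by norm_num)
  obtain ⟨w6, h8⟩ := sg_total
  obtain ⟨w, hwd⟩ : ∃ w : ℕ, w = w1 + w2 + w4 + w5 + w6 + 7 := ⟨_, rfl⟩
  refine ⟨ε1, hε1, w, ?_⟩
  have hW : IsW w (primorial w) := isW_primorial
  have hW0 := hW.1
  obtain ⟨N3, h3⟩ := h3 w (primorial w) (by omega) hW
  obtain ⟨N4, h4⟩ := h4 w (primorial w) (by omega) hW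
  obtain ⟨N6, h6⟩ := h6 w (primorial w) (by omega) hW
  obtain ⟨N7, h7⟩ := h7 w (primorial w) (by omega) hW
  obtain ⟨N8, h8⟩ := h8 w (primorial w) (by omega) hW
  obtain ⟨n2, h2⟩ := gr2R ε hε w (by omega)
  obtain ⟨n3, h2Z⟩ := gr2Z ε hε w (by omega)
  refine ⟨max (max n2 n3) (primorial w * (N3 + N4 + N6 + N7 + N8 + 40)), fun n hn => ?_⟩
  have hn2 : n2 ≤ n := ((le_max_left _ _).trans (le_max_left _ _)).trans hn
  have hn3 : n3 ≤ n := ((le_max_right _ _).trans (le_max_left _ _)).trans hn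
  have hnN : N3 + N4 + N6 + N7 + N8 + 40 ≤ n / primorial w := by
    rw [Nat.le_div_iff_mul_le hW0, mul_comm]
    exact (le_max_right _ _).trans hn
  have hWn : primorial w * (n / primorial w) ≤ n := Nat.mul_div_le _ _
  have hmono : ∀ (A : Finset ℕ) (y0 : ℕ) (c : ℝ), ε1 ≤ c →
      StartW w (primorial w) (n / primorial w) A y0 c →
      StartW w (primorial w) (n / primorial w) A y0 ε1 := by
    intro A y0 c hc hs
    obtain ⟨hlt, F, h1, h2, h3⟩ := hs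
    exact ⟨hlt, F, h1, h2, (mul_le_mul_of_nonneg_right hc (Nat.cast_nonneg _)).trans h3⟩
  refine ⟨⟨by omega, hW, hWn, ?_, by omega, hε1b, h3 _ (by omega), h4 _ (by omega),
    h8 _ (by omega), ?_, ?_⟩, ?_⟩
  · have h6 : n < primorial w * (n / primorial w) + primorial w := by
      have := Nat.lt_mul_div_succ n hW0
      linarith
    have h7 : primorial w * 1 ≤ primorial w * (n / primorial w) :=
      Nat.mul_le_mul_left _ (by omega)
    have h8 : 2 * primorial w * (n / primorial w) =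
      primorial w * (n / primorial w) + primorial w * (n / primorial w) := by ring
    omega
  · intro z0 v0 d hz0 hv0 hd hvc hc B hB hBc S hS
    refine le_trans (Finset.sum_le_sum_of_subset_of_nonneg ?_ fun _ _ _ => sg_nonneg _ _ _)
      (h7 _ (by omega) z0 v0 d hz0 hv0 hd hvc hc B hB hBc)
    intro v hv
    rw [Finset.mem_filter]
    exact hS v hv
  · intro A y0 v0 d hv0 hd hvc hc2 hD S hS
    refine le_trans (Finset.sum_le_sum_of_subset_of_nonneg ?_ fun _ _ _ => sg_nonneg _ _ _)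
      ((h6 _ (by omega) A y0 v0 d hv0 hd hvc hc2 hD).trans ?_)
    · intro v hv
      rw [Finset.mem_filter]
      exact hS v hv
    · exact mul_le_mul_of_nonneg_right (by linarith) (Nat.cast_nonneg _)
  · intro X A hX hL
    obtain ⟨hA, ⟨hX1, hr, hc⟩ | ⟨hX0, hp, hc⟩⟩ := hL
    · obtain ⟨y0, a1, a2⟩ := h2 n hn2 X (Finset.mem_Icc.mpr ⟨hX1, hX⟩) A hA hr hc
      exact ⟨y0, a1, hmono _ _ _ hε1a a2⟩
    · obtain ⟨y0, a1, a2⟩ := h2Z n hn3 A hA hp hc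
      subst hX0
      exact ⟨y0, by exact_mod_cast a1, hmono _ _ _ (by linarith) a2⟩

/-- **Large sets are joined in at most `5` steps.** -/
theorem chen_graph (ε : ℝ) (hε : 0 < ε) : ∃ n0 : ℕ, ∀ n : ℕ, n0 ≤ n →
    ∀ (X X' : ℕ) (A A' : Finset ℕ), X ≤ n → X' ≤ n → Large ε n X A → Large ε n X' A' →
    ∃ y ∈ A, ∃ y' ∈ A', (HG n).edist y y' ≤ 5 := by
  obtain ⟨ε1, hε1, w, n1, h⟩ := r_ctx ε hε
  refine ⟨n1, fun n hn X X' A A' hX hX' hd hd' => ?_⟩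
  obtain ⟨hctx, hgood⟩ := h n hn
  obtain ⟨y0, hg⟩ := hgood X A hX hd
  obtain ⟨y0', hg'⟩ := hgood X' A' hX' hd'
  have key : Joined n A A' 5 := by
    by_cases h2 : (X : ℤ) % 2 = (X' : ℤ) % 2
    · by_cases h3 : (3 : ℤ) ∣ X ↔ (3 : ℤ) ∣ X'
      · exact (hctx.four hg hg' h2 h3).mono (by norm_num)
      · by_cases h3' : (3 : ℤ) ∣ X'
        · exact (hctx.case2 hg' hg (by tauto) ⟨fun _ => h3', fun _ => h2.symm⟩).symm
        · exact hctx.case2 hg hg' h3' (by tauto)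
    · by_cases h3 : (3 : ℤ) ∣ X ↔ ¬ (3 : ℤ) ∣ X'
      · exact (hctx.five hg hg' h2 h3).mono (by norm_num)
      · by_cases h3' : (3 : ℤ) ∣ X'
        · exact hctx.case1 hg hg' (by tauto) h3' h2
        · exact hctx.case2 hg hg' h3' (by tauto)
  obtain ⟨y, hy, y', hy', h5⟩ := key
  exact ⟨y, hy, y', hy', h5⟩

end Pool.Agent.Lib.H18C
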