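import Pool.Agent.Lib.H18C.RD

/-!
# Chunk RS: sums of the weights
-/

open Finset Pool.Agent.Lib.Sieve Pool.Agent.Lib.GoldbachGraph Pool.Agent.Lib.H18GB

namespace Pool.Agent.Lib.H18C

theorem RS_nonneg {w W N : ℕ} {F : ℤ → ℝ} (h : AdmR w W N F) : ∀ x, 0 ≤ F x := by
  rcases h with h | h
  · exact h.1
  · exact h.1

/-- Copy of `adm_sum` (file `H18GB2/Adm.lean`) with `admR_dom` (take `s = C * C + 16`, or `C` larger, so
that `s ≥ 16`). -/
theorem adm_sumR : ∃ C : ℝ, 1 ≤ C ∧ ∃ w0 : ℕ, ∀ w W : ℕ, w0 ≤ w → IsW w W →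
    ∃ N0 : ℕ, ∀ N : ℕ, N0 ≤ N → ∀ F : ℤ → ℝ, AdmR w W N F →
    ∑ x ∈ Finset.Ico (0 : ℤ) N, F x ≤ C * N := by
  obtain ⟨K, hK, hdom⟩ := admR_dom
  obtain ⟨C1, hC1, h1⟩ := adm_gsum Empty Empty
  obtain ⟨C2, hC2, h2⟩ := adm_gsum Unit Empty
  obtain ⟨C3, hC3, h3⟩ := adm_gsum Empty Unit
  obtain ⟨C4, hC4, h4⟩ := adm_gsum Unit Unit
  set C : ℕ := C1 + C2 + C3 + C4 with hC
  set s : ℕ := C * C with hs
  have hC8 : 8 ≤ C := by omega
  have hs2 : 2 ≤ s := by nlinarith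
  have hs16 : 16 ≤ s := by nlinarith
  obtain ⟨w1, hw1⟩ := hdom s hs16
  refine ⟨K * s ^ 3 * C + 1, by
    have : 0 ≤ K * s ^ 3 * C := by positivity
    linarith, w1 + C + 2, fun w W hw hW => ?_⟩
  obtain ⟨N1, hN1⟩ := hw1 w W (by omega) hW
  obtain ⟨N2, hN2⟩ := adm_small 3 W hW.1 1 one_pos
  obtain ⟨N3, hN3⟩ := Filter.eventually_atTop.mp
    ((rt_tendsto (by omega : 1 ≤ s)).eventually (Filter.eventually_ge_atTop 2))
  refine ⟨N1 + N2 + N3 + 1, fun N hN F hF => ?_⟩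
  obtain ⟨hb, B, hB, hd⟩ := hN1 N (by omega) F hF
  have hz := hN3 N (by omega)
  have hsm := hN2 N (by omega) s hs2
  set z := rt s N with hzd
  have hst : Stp C C w z W N (sprimes w z) :=
    ⟨le_rfl, by omega, hz, pset_sprimes w z, hW, rt_pow_le (by omega) N⟩
  have hLL := LL_nonneg (W := W) (N := N) hW.1 (by omega)
  have hF0 := RS_nonneg hF
  have hη : (0 : ℝ) ≤ (w : ℝ) ^ (-(1 / 4 : ℝ)) := by positivity
  have hη1 : (w : ℝ) ^ (-(1 / 4 : ℝ)) ≤ 1 :=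
    Real.rpow_le_one_of_one_le_of_nonpos (by exact_mod_cast (by omega : 1 ≤ w)) (by norm_num)
  -- a general bound
  have hgen : ∀ (G : ℤ → ℝ) (C' : ℕ), C' ≤ C → (∀ x, 0 ≤ G x) →
      ∑ x ∈ Finset.Ico (0 : ℤ) N, G x ≤ C' * N →
      (∀ x ∈ Finset.Ico (0 : ℤ) N, x ∉ B → F x ≤ K * s ^ 3 * G x) →
      ∑ x ∈ Finset.Ico (0 : ℤ) N, F x ≤ (K * s ^ 3 * C + 1) * N := by
    intro G C' hC' hG0 hG hFG
    classical
    have h5 : ∀ x ∈ Finset.Ico (0 : ℤ) N, F x ≤ K * s ^ 3 * G x +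
        (if x ∈ B then (1 + LL W N) ^ 3 else 0) := by
      intro x hx
      by_cases hxB : x ∈ B
      · rw [if_pos hxB]
        have h6 := hb x hx
        have h7 : 0 ≤ K * s ^ 3 * G x := by have := hG0 x; positivity
        linarith
      · rw [if_neg hxB, add_zero]
        exact hFG x hx hxB
    refine (Finset.sum_le_sum h5).trans ?_
    rw [Finset.sum_add_distrib, ← Finset.mul_sum, ← Finset.sum_filter, Finset.sum_const,
      nsmul_eq_mul]
    have h8 : ((((Finset.Ico (0 : ℤ) N).filter fun x => x ∈ B).card : ℕ) : ℝ) ≤ 6 * z + 3 := by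
      have : ((Finset.Ico (0 : ℤ) N).filter fun x => x ∈ B).card ≤ B.card :=
        Finset.card_le_card fun x hx => (Finset.mem_filter.mp hx).2
      exact_mod_cast this.trans hB
    have h9 : ((((Finset.Ico (0 : ℤ) N).filter fun x => x ∈ B).card : ℕ) : ℝ) *
        (1 + LL W N) ^ 3 ≤ N := by
      refine (mul_le_mul_of_nonneg_right h8 (by positivity)).trans (hsm.trans ?_)
      rw [one_mul]
    have h10 : K * s ^ 3 * ∑ x ∈ Finset.Ico (0 : ℤ) N, G x ≤ K * s ^ 3 * (C * N) := by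
      have h11 : (C' : ℝ) * N ≤ C * N := by
        have : (C' : ℝ) ≤ C := by exact_mod_cast hC'
        gcongr
      have : 0 ≤ K * (s : ℝ) ^ 3 := by positivity
      exact mul_le_mul_of_nonneg_left (hG.trans h11) this
    linarith
  have hval : ∀ (ι υ : Type) [Fintype ι] [Fintype υ] (g : GW ι υ) (x : ℤ),
      0 ≤ g.val (sprimes w z) W x := by
    intro ι υ _ _ g x
    unfold GW.val
    have hr := rho_nonneg (pset_sprimes w z).prime
    refine mul_nonneg (Finset.prod_nonneg fun i _ => hr _) (Finset.prod_nonneg fun i _ => ?_)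
    exact div_nonneg (mul_nonneg (hr _) (hr _)) (CorrAux.SGp_pos (pset_sprimes w z) (by omega) _).le
  rcases hd with ⟨g, hg, hd⟩ | ⟨g, hg, hd⟩ | ⟨g, hg, hd⟩ | ⟨g, hg, hd⟩
  · exact hgen _ C1 (by omega) (hval _ _ g)
      (h1 C w z W N _ (hst.mono (by omega)) g _ hη hη1 hg) hd
  · exact hgen _ C2 (by omega) (hval _ _ g)
      (h2 C w z W N _ (hst.mono (by omega)) g _ hη hη1 hg) hd
  · exact hgen _ C3 (by omega) (hval _ _ g)
      (h3 C w z W N _ (hst.mono (by omega)) g _ hη hη1 hg) hd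
  · exact hgen _ C4 (by omega) (hval _ _ g)
      (h4 C w z W N _ (hst.mono (by omega)) g _ hη hη1 hg) hd

end Pool.Agent.Lib.H18C
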